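import Pool.Agent.Lib_helper48.OU.U16

/-! Two orthogonal pairs filling the space: the rank is a power of two. -/

set_option linter.unusedSectionVars false
set_option linter.unusedSimpArgs false

namespace Pool.Agent.OU

open Module Pool.Agent.OT

variable {K : Type*} [Field K] [CharZero K] [IsAlgClosed K]
variable {V : Type*} [AddCommGroup V] [Module K V] [FiniteDimensional K V]

/-- Dimension of an irreducible space for the Clifford relations. -/
theorem Cl.dimU (t : ℕ) : ∀ {d : ℕ} (_ : d = 2 * t ∨ d = 2 * t + 1) {γ : Fin d → Module.End K V}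
    {W : Submodule K V}, Cl γ W → Irr γ W → finrank K W = 2 ^ t := by
  induction t with
  | zero =>
    intro d hd γ W hC hW
    rcases hd with rfl | rfl
    · have : IsEmpty (Fin (2 * 0)) := by rw [mul_zero]; infer_instance
      rw [pow_zero]
      exact hW.line
    · rw [pow_zero]
      exact hC.base1 hW
  | succ t ih =>
    intro d hd γ W hC hW
    obtain ⟨m, rfl⟩ : ∃ m, d = m + 1 + 1 := ⟨d - 2, by omega⟩
    have hm : m = 2 * t ∨ m = 2 * t + 1 := by omega
    obtain ⟨ι, hι⟩ := IsAlgClosed.exists_pow_nat_eq (-1 : K) (n := 2) (by norm_num)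
    rw [pow_two] at hι
    rw [hC.rank2 hι hW, ih hm (hC.lo_Cl (W := W) hι hW) (hC.Wp_irr hι hW), pow_succ]
    ring

variable {L : Submodule K (Module.End K V)}
variable {s E F p q E' F' p' q' x₀ : Module.End K V} {κ : K}

namespace CfgU

/-- The Clifford relations on the range of q. -/
theorem spinData (C : CfgU L s κ E F p q E' F' p' q' x₀) (hn : 4 * rk E = finrank K V) :
    ∃ (d : ℕ) (γ w : Fin d → Module.End K V), Cl γ (LinearMap.range q) ∧ Irr γ (LinearMap.range q) ∧
      (∀ i, T1 L p q (w i) ∧ T1 L p' q' (w i) ∧ bb F F' (rk E : K) x₀ (w i) = 0) ∧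
      (∀ i u, q u = u → γ i u = F (w i (F' (x₀ u)))) ∧
      ∀ x, T1 L p q x → T1 L p' q' x → bb F F' (rk E : K) x₀ x = 0 →
        ∃ a : Fin d → K, x = ∑ i, a i • w i := by
  classical
  have D := C.D
  have S := C.S
  obtain ⟨r, hr⟩ : ∃ r : K, r = (rk E : K) := ⟨_, rfl⟩
  let M : Submodule K (Module.End K V) :=
    { carrier := {x | T1 L p q x ∧ T1 L p' q' x ∧ bb F F' r x₀ x = 0}
      zero_mem' := ⟨T1.zero, T1.zero, map_zero _⟩
      add_mem' := by
        rintro a b ⟨ha, ha1, ha2⟩ ⟨hb, hb1, hb2⟩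
        exact ⟨ha.add hb, ha1.add hb1, by rw [map_add, ha2, hb2, add_zero]⟩
      smul_mem' := by
        rintro c a ⟨ha, ha1, ha2⟩
        exact ⟨ha.smul c, ha1.smul c, by rw [map_smul, ha2, smul_zero]⟩ }
  have b00 : bb F F' r x₀ x₀ = 2 := by
    have h := D.bb_eq C.E0 C.h1 C.h2 C.h1 C.h2
    rw [C.xFx', ← two_smul K, ← hr] at h
    have h2 : ((2 : K) - bb F F' r x₀ x₀) • E = 0 := by rw [sub_smul, h, sub_self]
    exact (sub_eq_zero.mp ((smul_eq_zero.mp h2).resolve_right C.E0)).symm
  -- decomposition of the elements of bidegree (1,1)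
  have hdec : ∀ x, T1 L p q x → T1 L p' q' x → ∃ c : K, ∃ m ∈ M, x = c • x₀ + m := by
    intro x h1 h2
    refine ⟨bb F F' r x₀ x / 2, x - (bb F F' r x₀ x / 2) • x₀,
      ⟨h1.sub (C.h1.smul _), h2.sub (C.h2.smul _), ?_⟩, by abel⟩
    rw [map_sub, map_smul, b00, smul_eq_mul]; ring
  have hMnd : ∀ x ∈ M, (∀ y ∈ M, bb F F' r x y = 0) → x = 0 := by
    rintro x ⟨h1, h2, h3⟩ h
    refine D.bb_nd S C.E0 h1 h2 ?_
    intro y g1 g2
    obtain ⟨c, m, hm, rfl⟩ := hdec y g1 g2
    rw [← hr, map_add, map_smul, bb_symm, h3, smul_zero, zero_add, h m hm]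
  -- an orthonormal basis
  obtain ⟨B, hB⟩ : ∃ B : LinearMap.BilinForm K M,
      ∀ a b : M, B a b = -(1/2) * bb F F' r (a : Module.End K V) b :=
    ⟨(-(1/2) : K) • ((bb F F' r).restrict M), fun a b => rfl⟩
  have hBs : LinearMap.IsSymm B := ⟨fun a b => by
    show B a b = B b a
    rw [hB, hB, bb_symm]⟩
  have : Invertible (2 : K) := invertibleOfNonzero two_ne_zero
  obtain ⟨v, hv⟩ := LinearMap.BilinForm.exists_orthogonal_basis hBs
  have hvo : ∀ i j, i ≠ j → B (v i) (v j) = 0 := fun i j hij => hv hij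
  have hvv : ∀ i, B (v i) (v i) ≠ 0 := by
    intro i h0
    have h1 : ∀ y : M, B (v i) y = 0 := by
      intro y
      rw [← v.sum_repr y, map_sum]
      refine Finset.sum_eq_zero fun j _ => ?_
      rw [map_smul]
      by_cases hij : i = j
      · subst hij; rw [h0, smul_zero]
      · rw [hvo i j hij, smul_zero]
    have h2 : (v i : Module.End K V) = 0 := by
      refine hMnd _ (v i).2 ?_
      intro y hy
      have := h1 ⟨y, hy⟩
      rw [hB] at this
      exact (mul_eq_zero.mp this).resolve_left (by norm_num)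
    exact v.ne_zero i (Subtype.ext h2)
  choose c hc using fun i => IsAlgClosed.exists_pow_nat_eq (B (v i) (v i)) (n := 2) (by norm_num)
  have hc0 : ∀ i, c i ≠ 0 := by
    intro i h0
    apply hvv i
    rw [← hc i, h0]; norm_num
  let w : Fin (finrank K M) → Module.End K V := fun i => (c i)⁻¹ • (v i : Module.End K V)
  have hwM : ∀ i, w i ∈ M := fun i => M.smul_mem _ (v i).2
  have hww : ∀ i j, bb F F' r (w i) (w j) = if i = j then -2 else 0 := by
    intro i j
    have h1 : bb F F' r (w i) (w j) = (c i)⁻¹ * ((c j)⁻¹ * (-2 * B (v i) (v j))) := by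
      show bb F F' r ((c i)⁻¹ • (v i : Module.End K V)) ((c j)⁻¹ • (v j : Module.End K V)) = _
      have h2 := hB (v i) (v j)
      rw [map_smul, map_smul, LinearMap.smul_apply, smul_eq_mul, smul_eq_mul, h2]
      ring
    rw [h1]
    split_ifs with hij
    · subst hij
      rw [← hc i]
      have := hc0 i
      field_simp
    · rw [hvo i j hij]; ring
  obtain ⟨W, hWd⟩ : ∃ W, W = LinearMap.range q := ⟨_, rfl⟩
  have hqW : ∀ u ∈ W, q u = u := by
    rw [hWd]
    rintro _ ⟨v, rfl⟩; exact LinearMap.congr_fun D.A.toTri.qq v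
  have hWq : ∀ u, q u ∈ W := by rw [hWd]; exact fun u => ⟨u, rfl⟩
  have hW0 : W ≠ ⊥ := by
    rw [hWd]
    intro h
    apply C.E0
    rw [← D.A.Eq, LinearMap.range_eq_bot.mp h, mul_zero]
  let γ : Fin (finrank K M) → Module.End K V := fun i => F * (w i * (F' * (x₀ * q)))
  have hγ : ∀ i, γ i = F * (w i * (F' * (x₀ * q))) := fun i => rfl
  have hγu : ∀ i, ∀ u ∈ W, γ i u = F (w i (F' (x₀ u))) := by
    intro i u hu
    show F (w i (F' (x₀ (q u)))) = _
    rw [hqW u hu]
  have hCl : Cl γ W := by
    intro i j u hu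
    have h1 := C.clif (w i) (hwM j).1 (hwM j).2.1 (by rw [← hr]; exact (hwM j).2.2)
    have h2 := C.clif (w j) (hwM i).1 (hwM i).2.1 (by rw [← hr]; exact (hwM i).2.2)
    have h3 := D.bb_eq C.E0 (hwM i).1 (hwM i).2.1 (hwM j).1 (hwM j).2.1
    rw [← hr, hww] at h3
    have h4 : γ i * γ j + γ j * γ i = (if i = j then (2 : K) else 0) • q := by
      rw [hγ, hγ, h1, h2]
      have : -(F * (w i * (F' * (w j * q)))) + -(F * (w j * (F' * (w i * q))))
          = -(F * ((w i * (F' * w j) + w j * (F' * w i)) * q)) := by noncomm_ring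
      rw [this, h3, smul_mul_assoc, mul_smul_comm, D.A.Eq, D.A.FE]
      split_ifs <;> simp
    have h5 := LinearMap.congr_fun h4 u
    rw [LinearMap.add_apply, Module.End.mul_apply, Module.End.mul_apply, LinearMap.smul_apply,
      hqW u hu] at h5
    exact h5
  have hIrr : Irr γ W := by
    refine ⟨hW0, ?_, ?_⟩
    · intro i u _
      have : q * γ i = γ i := by rw [hγ, ← mul_assoc, D.A.qF]
      have h2 : q (γ i u) = γ i u := LinearMap.congr_fun this u
      rw [← h2]; exact hWq _
    · intro W' hle hst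
      by_cases h0 : W' = ⊥
      · left; exact h0
      right
      obtain ⟨u₀, hu₀, hu₀0⟩ := Submodule.exists_mem_ne_zero_of_ne_bot h0
      have hq' : ∀ u ∈ W', q u = u := fun u hu => hqW u (hle hu)
      -- γ(m) for all m in M
      have st1 : ∀ m ∈ M, ∀ u ∈ W', F (m (F' (x₀ u))) ∈ W' := by
        intro m hm u hu
        have h1 := congrArg Subtype.val (v.sum_repr ⟨m, hm⟩)
        simp only [Submodule.coe_sum, Submodule.coe_smul] at h1
        rw [← h1]
        simp only [LinearMap.sum_apply, LinearMap.smul_apply, map_sum, map_smul]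
        refine W'.sum_mem fun i _ => W'.smul_mem _ ?_
        have h2 := hst i u hu
        rw [hγu i u (hle hu)] at h2
        have h3 : F ((v i : Module.End K V) (F' (x₀ u))) = c i • F (w i (F' (x₀ u))) := by
          show _ = c i • F (((c i)⁻¹ • (v i : Module.End K V)) (F' (x₀ u)))
          rw [LinearMap.smul_apply, map_smul, smul_smul, mul_inv_cancel₀ (hc0 i), one_smul]
        rw [h3]
        exact W'.smul_mem _ h2
      have st2 : ∀ m ∈ M, ∀ m' ∈ M, ∀ u ∈ W', F (m (F' (m' u))) ∈ W' := by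
        intro m hm m' hm' u hu
        have h1 := C.clif m hm'.1 hm'.2.1 (by rw [← hr]; exact hm'.2.2)
        have h2 := LinearMap.congr_fun h1 u
        have h3 : F (m (F' (m' u))) = -(F (m (F' (x₀ (F (m' (F' (x₀ u)))))))) := by
          have e1 : (F * (m * (F' * (x₀ * q))) * (F * (m' * (F' * (x₀ * q))))) u
              = F (m (F' (x₀ (q (F (m' (F' (x₀ (q u))))))))) := rfl
          have e2 : (-(F * (m * (F' * (m' * q))))) u = -(F (m (F' (m' (q u))))) := rfl
          rw [e1, e2, hq' u hu] at h2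
          have e3 : q (F (m' (F' (x₀ u)))) = F (m' (F' (x₀ u))) := LinearMap.congr_fun D.A.qF _
          rw [e3] at h2
          rw [h2, neg_neg]
        rw [h3]
        exact W'.neg_mem (st1 m hm _ (st1 m' hm' u hu))
      have st3 : ∀ x y, T1 L p q x → T1 L p' q' x → T1 L p q y → T1 L p' q' y → ∀ u ∈ W',
          F (x (F' (y u))) ∈ W' := by
        intro x y h1 h2 g1 g2 u hu
        obtain ⟨a, m, hm, rfl⟩ := hdec x h1 h2
        obtain ⟨b, m', hm', rfl⟩ := hdec y g1 g2
        have k1 : F (x₀ (F' (x₀ u))) = u := by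
          have e1 : x₀ (F' (x₀ u)) = E u := LinearMap.congr_fun C.xFx' u
          have e2 : F (E u) = q u := LinearMap.congr_fun D.A.FE u
          rw [e1, e2, hq' u hu]
        have k2 : F (x₀ (F' (m' u))) = -(F (m' (F' (x₀ u)))) := by
          have e1 := LinearMap.congr_fun (C.perp hm'.1 hm'.2.1 (by rw [← hr]; exact hm'.2.2)).1 u
          have e2 : x₀ (F' (m' u)) = -(m' (F' (x₀ u))) := e1
          rw [e2, map_neg]
        have e : F ((a • x₀ + m) (F' ((b • x₀ + m') u))) = (a * b) • F (x₀ (F' (x₀ u)))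
            + a • F (x₀ (F' (m' u))) + b • F (m (F' (x₀ u))) + F (m (F' (m' u))) := by
          simp only [LinearMap.add_apply, LinearMap.smul_apply, map_add, map_smul, smul_add, smul_smul]
          rw [mul_comm b a]; abel
        rw [e, k1, k2]
        exact W'.add_mem (W'.add_mem (W'.add_mem (W'.smul_mem _ hu)
          (W'.smul_mem _ (W'.neg_mem (st1 m' hm' u hu)))) (W'.smul_mem _ (st1 m hm u hu)))
          (st2 m hm m' hm' u hu)
      have st4 : ∀ x w, T1 L p q x → T1 L p' q' x → T1 L p q w → T1 L q' p' w → ∀ u ∈ W',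
          F (x (w u)) ∈ W' := by
        intro x w h1 h2 h3 h4 u hu
        have hb := h4.back D.B.toTri
        have hy1 : T1 L p q (w * E' - E' * w) := (D.symm.T0E.brk1 D.A.brk h3).flip
        have hy2 : T1 L p' q' (w * E' - E' * w) := D.B.toTri.gE h4
        obtain ⟨y, hy⟩ : ∃ y, y = w * E' - E' * w := ⟨_, rfl⟩
        rw [← hy] at hb hy1 hy2
        have h5 : F' u = 0 := by
          rw [← hq' u hu]; exact LinearMap.congr_fun D.symm.Fq u
        have h6 : w u = -(F' (y u)) := by
          have := LinearMap.congr_fun hb u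
          rw [LinearMap.neg_apply, LinearMap.sub_apply, Module.End.mul_apply, Module.End.mul_apply, h5,
            map_zero, sub_zero] at this
          exact this
        rw [h6, map_neg, map_neg]
        exact W'.neg_mem (st3 x y h1 h2 hy1 hy2 u hu)
      have hstt : ∀ t t', T1 L p q t → T1 L p q t' → ∀ u ∈ W', F (t (t' u)) ∈ W' := by
        intro t t' ht ht' u hu
        obtain ⟨x, z, w, x1, x2, z1, z2, w1, w2, rfl⟩ := D.dec ht
        obtain ⟨x', z', w', x1', x2', z1', z2', w1', w2', rfl⟩ := D.dec ht'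
        rw [C.no10 hn z1 z2, C.no10 hn z1' z2', add_zero, add_zero]
        have g1 : x (x' u) = 0 := LinearMap.congr_fun (D.xx x1 x2 x1' x2') u
        have g2 : w (w' u) = 0 := by
          have h1 : w' u = w' (q u) := by rw [hq' u hu]
          have h2 : w' (q u) = q' (w' u) := (LinearMap.congr_fun (D.dm w1' w2').1 u).symm
          rw [h1, h2]
          exact LinearMap.congr_fun w2.xp _
        have g3 : w (x' u) = x' (w u) - pr F (rk E : K) x' w • E u := by
          have := LinearMap.congr_fun (x1'.brk_eq D.A.toTri C.E0 w1) u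
          rw [LinearMap.sub_apply, LinearMap.smul_apply, Module.End.mul_apply,
            Module.End.mul_apply] at this
          rw [← this]; abel
        have g4 : F (E u) = u := by
          have : F (E u) = q u := LinearMap.congr_fun D.A.FE u
          rw [this, hq' u hu]
        have e : F ((x + w) ((x' + w') u)) = F (x (w' u)) + F (x' (w u)) - pr F (rk E : K) x' w • u := by
          simp only [LinearMap.add_apply, map_add, g1, g2, g3, map_sub, map_smul, g4, zero_add, add_zero]
          abel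
        rw [e]
        exact W'.sub_mem (W'.add_mem (st4 x w' x1 x2 w1' w2' u hu) (st4 x' w x1' x2' w1 w2 u hu))
          (W'.smul_mem _ hu)
      apply le_antisymm hle
      intro v hv
      rw [← hqW v hv]
      exact S.irrU D.A.toTri C.E0 W' hq' hstt hu₀ hu₀0 v
  rw [hWd] at hCl hIrr
  refine ⟨finrank K M, γ, w, hCl, hIrr, ?_, ?_, ?_⟩
  · intro i
    rw [← hr]
    exact hwM i
  · intro i u hu
    refine hγu i u ?_
    rw [← hu]; exact hWq u
  · intro x h1 h2 h3
    rw [← hr] at h3
    have h4 := congrArg Subtype.val (v.sum_repr ⟨x, h1, h2, h3⟩)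
    simp only [Submodule.coe_sum, Submodule.coe_smul] at h4
    refine ⟨fun i => v.repr ⟨x, h1, h2, h3⟩ i * c i, ?_⟩
    refine h4.symm.trans ?_
    refine Finset.sum_congr rfl fun i _ => ?_
    show _ = (v.repr ⟨x, h1, h2, h3⟩ i * c i) • ((c i)⁻¹ • (v i : Module.End K V))
    rw [smul_smul, mul_assoc, mul_inv_cancel₀ (hc0 i), mul_one]

/-- The dimensions are those of a spin representation. -/
theorem spin (C : CfgU L s κ E F p q E' F' p' q' x₀) (hn : 4 * rk E = finrank K V) :
    ∃ t, rk E = 2 ^ t := by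
  obtain ⟨d, γ, w, hCl, hIrr, -⟩ := C.spinData hn
  obtain ⟨t, ht⟩ : ∃ t, d = 2 * t ∨ d = 2 * t + 1 := ⟨d / 2, by omega⟩
  refine ⟨t, ?_⟩
  rw [← C.D.A.toTri.rkq]
  exact Cl.dimU t ht hCl hIrr

end CfgU

end Pool.Agent.OU
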