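import Pool.Agent.Lib_helper24.K0.S1
import Pool.Agent.Lib_helper48.OT.G13
import Pool.Agent.Lib_helper9.U4.B

/-! The case of trace zero: ranks of elements with square zero and elements of small rank. -/

set_option linter.unusedSectionVars false
set_option linter.unusedSimpArgs false

namespace Pool.Agent.OU

open Module Pool.Agent.OT

variable {K : Type*} [Field K] [CharZero K] [IsAlgClosed K]
variable {V : Type*} [AddCommGroup V] [Module K V] [FiniteDimensional K V]
variable {L : Submodule K (Module.End K V)}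
variable {s E F p q E' F' p' q' x₀ x : Module.End K V} {κ : K}

/-- The exceptional pairs: dimension n and rank r. -/
def Exc0 (n r : ℕ) : Prop :=
  (∃ t, 1 ≤ t ∧ n = 2 ^ (t + 2) ∧ (r = 2 ^ t ∨ r = 2 ^ (t + 1))) ∨
    ∃ k, 1 ≤ k ∧ n = (2 * k + 2).choose (k + 1) ∧ r = (2 * k).choose k

/-- The rank of a nonzero element with square zero is the rank of the extremal elements, or at
least twice that. -/
theorem SimU.rkU (S : SimU L) (hI : Inv L s κ) (hsc : ∀ c : K, s ≠ c • 1) {e N : Module.End K V}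
    (he : Extr L e) (hN : N ∈ L) (hNN : N * N = 0) (hN0 : N ≠ 0) :
    rk N = rk e ∨ 2 * rk e ≤ rk N := by
  classical
  have hL := S.good
  have hex : ∃ n, ∃ a ∈ L, a * a = 0 ∧ a ≠ 0 ∧ rk a = n := ⟨_, N, hN, hNN, hN0, rfl⟩
  obtain ⟨m, hm, hmm, hm0, hmrk⟩ := Nat.find_spec hex
  have hmin : ∀ a ∈ L, a * a = 0 → a ≠ 0 → rk m ≤ rk a := by
    intro a ha haa ha0
    rw [hmrk]
    exact Nat.find_min' hex ⟨a, ha, haa, ha0, rfl⟩
  have hme : Extr L m := by
    rcases hL.split hm hmm hm0 with h | ⟨a, ha, b, hb, haa, hbb, ha0, hb0, hab⟩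
    · exact h
    · exfalso
      have h1 := hmin a ha haa ha0
      have h2 : rk b ≠ 0 := fun h => hb0 (eq_zero_of_rk h)
      omega
  have hr : rk m = rk e := S.rk_extr hI hsc hme he
  rcases hL.split hN hNN hN0 with h | ⟨a, ha, b, hb, haa, hbb, ha0, hb0, hab⟩
  · left; exact S.rk_extr hI hsc h he
  · right
    have h1 := hmin a ha haa ha0
    have h2 := hmin b hb hbb hb0
    omega

/-- Four times the middle binomial coefficient is larger than the next one. -/
theorem four_central (k : ℕ) : (2 * k + 2).choose (k + 1) < 4 * (2 * k).choose k := by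
  have hcb := Nat.succ_mul_centralBinom_succ k
  rw [Nat.centralBinom, Nat.centralBinom] at hcb
  have h3 : (2 * (k + 1)).choose (k + 1) = (2 * k + 2).choose (k + 1) := by
    rw [mul_add, mul_one]
  rw [h3] at hcb
  have h5 : 0 < (2 * k).choose k := Nat.choose_pos (by omega)
  obtain ⟨a, ha⟩ : ∃ a, a = (2 * k + 2).choose (k + 1) := ⟨_, rfl⟩
  obtain ⟨b, hb⟩ : ∃ b, b = (2 * k).choose k := ⟨_, rfl⟩
  rw [← ha, ← hb] at hcb
  rw [← hb] at h5
  rw [← ha, ← hb]
  by_contra hlt
  push Not at hlt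
  nlinarith

/-- The case without a second pair and with trace zero. -/
theorem PA.mid (h : PA L s 0 E F p q) :
    ∃ k, rk E = (2 * k).choose k ∧ finrank K V = (2 * k + 2).choose (k + 1) := by
  obtain ⟨m, k, hkm, h1, h2, h3⟩ := h.S.caseA_full h.toSDU h.E0 h.hA
  have ht : LinearMap.trace K V s = 0 := by
    have := h.S.tr h.hs
    rwa [zero_smul, sub_zero] at this
  rw [ht] at h3
  have h4 : (((m + 1).choose (k + 1) : ℕ) : K) = (((m + 1).choose k : ℕ) : K) :=
    (sub_eq_zero.mp h3.symm)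
  have h5 : (m + 1).choose (k + 1) = (m + 1).choose k := by exact_mod_cast h4
  have h6 : (m + 1).choose (k + 1) * (k + 1) = (m + 1).choose k * (m + 1 - k) :=
    Nat.choose_succ_right_eq (m + 1) k
  rw [h5] at h6
  have h7 : 0 < (m + 1).choose k := Nat.choose_pos (by omega)
  have h8 : k + 1 = m + 1 - k := Nat.eq_of_mul_eq_mul_left h7 h6
  have h9 : m = 2 * k := by omega
  refine ⟨k, by rw [h1, h9], ?_⟩
  rw [h2, h9, Nat.choose_succ_succ (2 * k + 1) k, add_comm]

/-- Trace zero: an adapted pair of rank one, or two pairs of rank one or two in a larger space. -/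
theorem K0core' (S : SimU L) (hI : Inv L s 0) (hsc : ∀ c : K, s ≠ c • 1) (hx : x ∈ L)
    (hx0 : x ≠ 0)
    (h : (∃ c : K, 4 * rk (x + c • (1 : Module.End K V)) < finrank K V) ∨
      (x * x = 0 ∧ ¬ Exc0 (finrank K V) (rk x))) :
    ∃ t E F p q, (t = s ∨ t = -s) ∧ SDU L t 0 E F p q ∧ E ≠ 0 ∧
      (rk E = 1 ∨ (rk E ≤ 2 ∧ 4 * rk E < finrank K V ∧
        ∃ E' F' p' q' x₀, CfgU L t 0 E F p q E' F' p' q' x₀)) := by
  have hL := S.good
  -- the main step, with the bound on the rank in the first case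
  have main : ∀ c : K, (4 * rk (x + c • (1 : Module.End K V)) < finrank K V ∨
      (x * x = 0 ∧ ¬ Exc0 (finrank K V) (rk x))) →
      ∃ t E F p q, (t = s ∨ t = -s) ∧ SDU L t 0 E F p q ∧ E ≠ 0 ∧
      (rk E = 1 ∨ (rk E ≤ 2 ∧ 4 * rk E < finrank K V ∧
        ∃ E' F' p' q' x₀, CfgU L t 0 E F p q E' F' p' q' x₀)) := by
    intro c hc
    obtain ⟨t, κ', hI', ht, e, he, he0, her⟩ := S.exJc hI hsc hx hx0 c
    have hκ : κ' = 0 := by
      rcases ht with ⟨-, h⟩ | ⟨-, h⟩
      · exact h
      · rw [h, neg_zero]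
    subst hκ
    have hts : t = s ∨ t = -s := by
      rcases ht with ⟨h, -⟩ | ⟨h, -⟩
      · exact Or.inl h
      · exact Or.inr h
    have htc : ∀ c : K, t ≠ c • 1 := by
      intro c h
      rcases hts with rfl | rfl
      · exact hsc c h
      · refine hsc (-c) ?_
        rw [neg_smul, ← h, neg_neg]
    obtain ⟨E, F, p, q, D, E0, hEe, hAB⟩ := S.cases hI' he he0
    refine ⟨t, E, F, p, q, hts, D, E0, ?_⟩
    rcases hAB with hA | ⟨E', F', p', q', x₀, C⟩
    · left
      obtain ⟨k, hk1, hk2⟩ := hA.mid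
      rcases hc with hc | ⟨hxx, hne⟩
      · exfalso
        have h1 := four_central k
        rw [← hk1, ← hk2] at h1
        omega
      · by_contra hr
        have h1 := hA.sq hr hx hxx hx0
        apply hne
        right
        refine ⟨k, ?_, hk2, by rw [h1, hk1]⟩
        rcases Nat.eq_zero_or_pos k with rfl | h
        · exact absurd (by rw [hk1]; rfl) hr
        · exact h
    · rcases C.le4.lt_or_eq with h4 | h4
      · right
        exact ⟨Pool.Agent.U4.rk_le_two C (C.qmem h4), h4, E', F', p', q', x₀, C⟩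
      · left
        rcases hc with hc | ⟨hxx, hne⟩
        · exfalso
          omega
        · obtain ⟨k, hk⟩ := C.spin h4
          rcases Nat.eq_zero_or_pos k with rfl | hk0
          · rw [hk, pow_zero]
          exfalso
          apply hne
          left
          refine ⟨k, hk0, ?_, ?_⟩
          · rw [← h4, hk, pow_add]; ring
          · have h2 := two_rk_le hxx
            have e1 : 2 ^ (k + 1) = 2 * 2 ^ k := by rw [pow_succ]; ring
            rcases S.rkU hI' htc (D.toTri.extr hL E0) hx hxx hx0 with h | h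
            · left; rw [h, hk]
            · right; omega
  rcases h with ⟨c, hc⟩ | h
  · exact main c (Or.inl hc)
  · exact main 0 (Or.inr h)

/-- The same, in the form of the block. -/
theorem K0core (S : SimU L) (hI : Inv L s 0) (hsc : ∀ c : K, s ≠ c • 1) (hx : x ∈ L)
    (hx0 : x ≠ 0)
    (h : 4 * rk x < finrank K V ∨ (x * x = 0 ∧ ¬ Exc0 (finrank K V) (rk x))) :
    ∃ t E F p q, SDU L t 0 E F p q ∧ E ≠ 0 ∧
      (rk E = 1 ∨ (rk E ≤ 2 ∧ 4 * rk E < finrank K V ∧
        ∃ E' F' p' q' x₀, CfgU L t 0 E F p q E' F' p' q' x₀)) := by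
  obtain ⟨t, E, F, p, q, -, h1, h2, h3⟩ := K0core' S hI hsc hx hx0 (by
    rcases h with h | h
    · left
      exact ⟨0, by rwa [zero_smul, add_zero]⟩
    · right; exact h)
  exact ⟨t, E, F, p, q, h1, h2, h3⟩

end Pool.Agent.OU
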