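import Pool.Agent.Lib_helper48.OU.U16

/-! An invariant form from a form on the range of q. -/

set_option linter.unusedSectionVars false
set_option linter.unusedSimpArgs false

namespace Pool.Agent.OU

open Module Pool.Agent.OT

variable {K : Type*} [Field K] [CharZero K] [IsAlgClosed K]
variable {V : Type*} [AddCommGroup V] [Module K V] [FiniteDimensional K V]
variable {L : Submodule K (Module.End K V)}
variable {s E F p q E' F' p' q' x₀ x : Module.End K V} {κ : K}

/-- L preserves a nonzero bilinear form. -/
def SelfDual (L : Submodule K (Module.End K V)) : Prop :=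
  ∃ β : V →ₗ[K] V →ₗ[K] K, β ≠ 0 ∧ ∀ x ∈ L, ∀ v w, β (x v) w = -β v (x w)

/-- The action on the sum of V and its dual. -/
def op (x : Module.End K V) : (V × Module.Dual K V) →ₗ[K] (V × Module.Dual K V) :=
  LinearMap.prodMap x (-(LinearMap.dualMap x))

theorem op_fst (x : Module.End K V) (z : V × Module.Dual K V) : (op x z).1 = x z.1 := rfl

theorem op_snd (x : Module.End K V) (z : V × Module.Dual K V) (v : V) :
    (op x z).2 v = -z.2 (x v) := rfl

/-- The generators of the graph. -/
inductive Gr (L : Submodule K (Module.End K V)) (E F p q : Module.End K V)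
    (b : V →ₗ[K] V →ₗ[K] K) : V × Module.Dual K V → Prop
  | g0 {z : V × Module.Dual K V} (h1 : q z.1 = z.1) (h2 : ∀ v, z.2 v = -b (F v) z.1) : Gr L E F p q b z
  | g1 {z : V × Module.Dual K V} (u : V) (h0 : q u = u) (h1 : z.1 = E u)
      (h2 : ∀ v, z.2 v = b (q v) u) : Gr L E F p q b z
  | g2 {z : V × Module.Dual K V} (t : Module.End K V) (ht : T1 L p q t) (u : V) (h0 : q u = u)
      (h1 : z.1 = t u) (h2 : ∀ v, z.2 v = b (F (t v)) u) : Gr L E F p q b z

theorem Gr.stab (D : Tri L E F p q) {b : V →ₗ[K] V →ₗ[K] K}
    (hb : ∀ t t', T1 L p q t → T1 L p q t' → ∀ u v, q u = u → q v = v →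
      b (F (t' (t u))) v = -b u (F (t (t' v)))) {z : V × Module.Dual K V} (hz : Gr L E F p q b z)
    {n : Module.End K V} (hn : NN L E F p q n) : op n z = 0 ∨ Gr L E F p q b (op n z) := by
  have hqE : ∀ v, q (E v) = 0 := fun v => LinearMap.congr_fun D.qE v
  have hFF : ∀ v, F (F v) = 0 := fun v => LinearMap.congr_fun D.FF v
  have hEE : ∀ v, E (E v) = 0 := fun v => LinearMap.congr_fun D.EE v
  have hFE : ∀ v, F (E v) = q v := fun v => LinearMap.congr_fun D.FE v
  have hEF : ∀ v, E (F v) = p v := fun v => LinearMap.congr_fun D.EF v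
  have hEq : ∀ v, E (q v) = E v := fun v => LinearMap.congr_fun D.Eq v
  have hpE : ∀ v, p (E v) = E v := fun v => LinearMap.congr_fun D.pE v
  have hFp : ∀ v, F (p v) = F v := fun v => LinearMap.congr_fun D.Fp v
  have hqF : ∀ v, q (F v) = F v := fun v => LinearMap.congr_fun D.qF v
  have hFq : ∀ v, F (q v) = 0 := fun v => LinearMap.congr_fun D.Fq v
  have hqq : ∀ v, q (q v) = q v := fun v => LinearMap.congr_fun D.qq v
  have hqp : ∀ v, q (p v) = 0 := fun v => LinearMap.congr_fun D.qp v
  have qt : ∀ t, T1 L p q t → ∀ v, q (t v) = 0 := fun t ht v => LinearMap.congr_fun ht.qx v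
  have tp : ∀ t, T1 L p q t → ∀ v, t (p v) = 0 := fun t ht v => LinearMap.congr_fun ht.xp v
  have pt : ∀ t, T1 L p q t → ∀ v, p (t v) = t v - t (q v) := fun t ht v =>
    LinearMap.congr_fun ht.px v
  have Ftq : ∀ t, T1 L p q t → ∀ v, F (t (q v)) = 0 := by
    intro t ht v
    rw [← hFp, pt t ht, hqq, sub_self, map_zero]
  have tE : ∀ t, T1 L p q t → ∀ v, t (E v) = 0 := by
    intro t ht v
    rw [← hpE, tp t ht]
  have Et : ∀ t, T1 L p q t → ∀ v, E (t v) = 0 := by
    intro t ht v
    rw [← hEq, qt t ht, map_zero]
  have txq : ∀ t x, T1 L p q t → T1 L p q x → ∀ v, t (x v) = t (x (q v)) := by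
    intro t x ht hx v
    have h1 := tp t ht (x v)
    rw [pt x hx, map_sub] at h1
    exact sub_eq_zero.mp h1
  cases hz with
  | g0 h1 h2 =>
    obtain ⟨u, f⟩ := z
    simp only at h1 h2
    cases hn with
    | e =>
      right
      refine Gr.g1 u h1 rfl ?_
      intro v
      rw [op_snd]; show -f (E v) = _
      rw [h2, hFE, neg_neg]
    | f =>
      left
      refine Prod.ext ?_ ?_
      · rw [op_fst]; show F u = 0
        rw [← h1, hFq]
      · ext v
        rw [op_snd]; show -f (F v) = 0
        rw [h2, hFF, map_zero, LinearMap.zero_apply, neg_zero, neg_zero]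
    | x ht =>
      right
      refine Gr.g2 n ht u h1 rfl ?_
      intro v
      rw [op_snd]; show -f (n v) = _
      rw [h2, neg_neg]
    | y ht =>
      left
      have yq : ∀ v, n (q v) = 0 := fun v => LinearMap.congr_fun ht.xp v
      have py : ∀ v, p (n v) = 0 := fun v => LinearMap.congr_fun ht.qx v
      refine Prod.ext ?_ ?_
      · rw [op_fst]; show n u = 0
        rw [← h1, yq]
      · ext v
        rw [op_snd]; show -f (n v) = 0
        rw [h2, ← hFp, py, map_zero, map_zero, LinearMap.zero_apply, neg_zero, neg_zero]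
  | g1 u h0 h1 h2 =>
    obtain ⟨a, f⟩ := z
    simp only at h1 h2
    subst h1
    cases hn with
    | e =>
      left
      refine Prod.ext ?_ ?_
      · exact hEE u
      · ext v
        rw [op_snd]; show -f (E v) = 0
        rw [h2, hqE, map_zero, LinearMap.zero_apply, neg_zero]
    | f =>
      right
      have e : (op F (E u, f)).1 = u := by
        rw [op_fst]; show F (E u) = u
        rw [hFE, h0]
      refine Gr.g0 ?_ ?_
      · rw [e, h0]
      · intro v
        rw [e, op_snd]; show -f (F v) = _
        rw [h2, hqF]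
    | x ht =>
      left
      refine Prod.ext ?_ ?_
      · rw [op_fst]; exact tE n ht u
      · ext v
        rw [op_snd]; show -f (n v) = 0
        rw [h2, qt n ht, map_zero, LinearMap.zero_apply, neg_zero]
    | y ht =>
      right
      have yq : ∀ v, n (q v) = 0 := fun v => LinearMap.congr_fun ht.xp v
      have py : ∀ v, p (n v) = 0 := fun v => LinearMap.congr_fun ht.qx v
      refine Gr.g2 (n * E - E * n) (D.gE ht) u h0 ?_ ?_
      · rw [op_fst]; show n (E u) = n (E u) - E (n u)
        have : n u = 0 := by rw [← h0, yq]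
        rw [this, map_zero, sub_zero]
      · intro v
        rw [op_snd]
        show -f (n v) = b (F (n (E v) - E (n v))) u
        rw [h2, map_sub, hFE, ← hFp (n (E v)), py, map_zero, zero_sub, map_neg, LinearMap.neg_apply]
  | g2 t ht u h0 h1 h2 =>
    obtain ⟨a, f⟩ := z
    simp only at h1 h2
    subst h1
    cases hn with
    | e =>
      left
      refine Prod.ext ?_ ?_
      · exact Et t ht u
      · ext v
        rw [op_snd]; show -f (E v) = 0
        rw [h2, tE t ht, map_zero, map_zero, LinearMap.zero_apply, neg_zero]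
    | f =>
      left
      refine Prod.ext ?_ ?_
      · rw [op_fst]; show F (t u) = 0
        rw [← h0, Ftq t ht]
      · ext v
        rw [op_snd]; show -f (F v) = 0
        rw [h2, ← hqF v, Ftq t ht, map_zero, LinearMap.zero_apply, neg_zero]
    | x hx =>
      right
      refine Gr.g1 (F (n (t u))) (hqF _) ?_ ?_
      · rw [op_fst]; show n (t u) = E (F (n (t u)))
        rw [hEF, pt n hx, qt t ht, map_zero, sub_zero]
      · intro v
        rw [op_snd]; show -f (n v) = _
        rw [h2, txq t n ht hx, hb n t hx ht (q v) u (hqq v) h0, neg_neg]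
    | y hy =>
      right
      have yq : ∀ v, n (q v) = 0 := fun v => LinearMap.congr_fun hy.xp v
      have py : ∀ v, p (n v) = 0 := fun v => LinearMap.congr_fun hy.qx v
      have qy : ∀ v, q (n v) = n v - n (p v) := fun v => LinearMap.congr_fun hy.px v
      have hg := D.gE hy
      have gv : ∀ v, (n * E - E * n) v = n (E v) - E (n v) := fun v => rfl
      have ptu : p (t u) = 0 := by
        rw [pt t ht, h0, sub_self]
      have e1 : n (t u) = -(F ((n * E - E * n) (t u))) := by
        have e2 : q (n (t u)) = n (t u) := by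
          rw [qy, ptu, map_zero, sub_zero]
        rw [gv, Et t ht, map_zero, zero_sub, map_neg, neg_neg, hFE, e2]
      refine Gr.g0 ?_ ?_
      · rw [op_fst]; show q (n (t u)) = n (t u)
        rw [qy, ptu, map_zero, sub_zero]
      · intro v
        rw [op_fst, op_snd]
        show -f (n v) = -b (F v) (n (t u))
        rw [e1, map_neg, neg_neg, h2]
        have h3 := hb (n * E - E * n) t hg ht (F v) u (hqF v) h0
        have h4 : b (F v) (F ((n * E - E * n) (t u))) = -b (F (t ((n * E - E * n) (F v)))) u := by
          rw [h3, neg_neg]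
        rw [h4, gv, hEF, map_sub, tE t ht, sub_zero]
        have h5 : F (t (n v)) = F (t (n (p v))) := by
          have : n v = q (n v) + n (p v) := by rw [qy]; abel
          rw [this, map_add, map_add, Ftq t ht, zero_add]
        rw [h5]

/-- The invariant form. -/
theorem SimU.lift (S : SimU L) (D : Tri L E F p q) (b : V →ₗ[K] V →ₗ[K] K)
    (hb : ∀ t t', T1 L p q t → T1 L p q t' → ∀ u v, q u = u → q v = v →
      b (F (t' (t u))) v = -b u (F (t (t' v))))
    (hb0 : ∃ u v, q u = u ∧ q v = v ∧ b u v ≠ 0) : SelfDual L := by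
  classical
  obtain ⟨u₁, v₁, hu₁, hv₁, huv⟩ := hb0
  have E0 : E ≠ 0 := by
    rintro rfl
    apply huv
    have hq0 : q = 0 := by rw [← D.FE, mul_zero]
    rw [← hu₁, hq0, LinearMap.zero_apply, map_zero, LinearMap.zero_apply]
  have hFE : ∀ v, F (E v) = q v := fun v => LinearMap.congr_fun D.FE v
  have hqE : ∀ v, q (E v) = 0 := fun v => LinearMap.congr_fun D.qE v
  have hFp : ∀ v, F (p v) = F v := fun v => LinearMap.congr_fun D.Fp v
  have hqp : ∀ v, q (p v) = 0 := fun v => LinearMap.congr_fun D.qp v
  have hpE : ∀ v, p (E v) = E v := fun v => LinearMap.congr_fun D.pE v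
  obtain ⟨G, hG⟩ : ∃ G : Submodule K (V × Module.Dual K V),
    G = Submodule.span K {z | Gr L E F p q b z} := ⟨_, rfl⟩
  have GrG : ∀ z, Gr L E F p q b z → z ∈ G := by
    intro z hz; rw [hG]; exact Submodule.subset_span hz
  -- stability
  have hst : ∀ x ∈ L, ∀ z ∈ G, op x z ∈ G := by
    let T : Submodule K (Module.End K V) :=
      { carrier := {x | ∀ z ∈ G, op x z ∈ G}
        zero_mem' := by
          intro z _
          have : op (0 : Module.End K V) z = 0 := by
            refine Prod.ext rfl ?_
            ext v
            rw [op_snd, LinearMap.zero_apply, map_zero, neg_zero]; rfl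
          rw [this]; exact G.zero_mem
        add_mem' := by
          intro a c ha hc z hz
          have : op (a + c) z = op a z + op c z := by
            refine Prod.ext rfl ?_
            ext v
            show -z.2 ((a + c) v) = -z.2 (a v) + -z.2 (c v)
            rw [LinearMap.add_apply, map_add, neg_add]
          rw [this]; exact G.add_mem (ha z hz) (hc z hz)
        smul_mem' := by
          intro c a ha z hz
          have : op (c • a) z = c • op a z := by
            refine Prod.ext rfl ?_
            ext v
            show -z.2 ((c • a) v) = c • -z.2 (a v)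
            rw [LinearMap.smul_apply, map_smul, smul_neg]
          rw [this]; exact G.smul_mem _ (ha z hz) }
    refine S.gen D E0 T ?_ ?_
    · intro x hx y hy z hz
      have : op (x * y - y * x) z = op x (op y z) - op y (op x z) := by
        refine Prod.ext rfl ?_
        ext v
        show -z.2 ((x * y - y * x) v) = - -z.2 (y (x v)) - - -z.2 (x (y v))
        rw [LinearMap.sub_apply, map_sub, Module.End.mul_apply, Module.End.mul_apply]
        abel
      rw [this]
      exact G.sub_mem (hx _ (hy z hz)) (hy _ (hx z hz))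
    · intro n hn z hz
      rw [hG] at hz
      induction hz using Submodule.span_induction with
      | mem z hz =>
        rcases Gr.stab D hb hz hn with h | h
        · rw [h]; exact G.zero_mem
        · exact GrG _ h
      | zero => rw [map_zero]; exact G.zero_mem
      | add a c _ _ ha hc => rw [map_add]; exact G.add_mem ha hc
      | smul r a _ ha => rw [map_smul]; exact G.smul_mem _ ha
  -- the part in degree minus one
  have hkey : ∀ z ∈ G, ∀ v, z.2 (p v) = -b (F v) (q z.1) := by
    intro z hz
    rw [hG] at hz
    induction hz using Submodule.span_induction with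
    | mem z hz =>
      intro v
      cases hz with
      | g0 h1 h2 => rw [h2, hFp, h1]
      | g1 u h0 h1 h2 => rw [h2, h1, hqp, hqE, map_zero, map_zero, LinearMap.zero_apply, neg_zero]
      | g2 t ht u h0 h1 h2 =>
        have e1 : t (p v) = 0 := LinearMap.congr_fun ht.xp v
        have e2 : q (t u) = 0 := LinearMap.congr_fun ht.qx u
        rw [h2, h1, e1, e2, map_zero, map_zero, map_zero, LinearMap.zero_apply, neg_zero]
    | zero => intro v; simp
    | add a c _ _ ha hc =>
      intro v
      rw [Prod.snd_add, Prod.fst_add, LinearMap.add_apply, ha, hc, map_add, map_add, neg_add]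
    | smul r a _ ha =>
      intro v
      rw [Prod.smul_snd, Prod.smul_fst, LinearMap.smul_apply, ha, map_smul, map_smul, smul_neg]
  -- surjective
  have hB : ∀ v : V, ∃ f : Module.Dual K V, (v, f) ∈ G := by
    let B : Submodule K V := G.map (LinearMap.fst K V (Module.Dual K V))
    have hBB : B = ⊥ ∨ B = ⊤ := by
      refine S.irr B ?_
      rintro x hx _ ⟨z, hz, rfl⟩
      exact ⟨op x z, hst x hx z hz, rfl⟩
    have hf : ∀ v, (-((LinearMap.flip b v₁) ∘ₗ F)) v = -b (F v) v₁ := fun v => rfl
    have hmem : (v₁, -((LinearMap.flip b v₁) ∘ₗ F)) ∈ G :=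
      GrG _ (Gr.g0 hv₁ hf)
    rcases hBB with h | h
    · exfalso
      have h1 : v₁ ∈ B := ⟨_, hmem, rfl⟩
      rw [h, Submodule.mem_bot] at h1
      apply huv
      rw [h1, map_zero]
    · intro v
      have : v ∈ B := by rw [h]; exact Submodule.mem_top
      obtain ⟨⟨v', f⟩, hz, rfl⟩ := this
      exact ⟨f, hz⟩
  -- injective
  have hC : ∀ f : Module.Dual K V, ((0 : V), f) ∈ G → f = 0 := by
    let C : Submodule K V :=
      { carrier := {v | ∀ f : Module.Dual K V, ((0 : V), f) ∈ G → f v = 0}
        zero_mem' := fun f _ => map_zero f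
        add_mem' := by
          intro a c ha hc f hf
          rw [map_add, ha f hf, hc f hf, add_zero]
        smul_mem' := by
          intro r a ha f hf
          rw [map_smul, ha f hf, smul_zero] }
    have hCC : C = ⊥ ∨ C = ⊤ := by
      refine S.irr C ?_
      intro x hx v hv f hf
      have h1 := hst x hx _ hf
      have e : op x ((0 : V), f) = ((0 : V), -(LinearMap.dualMap x f)) :=
        Prod.ext (map_zero x) rfl
      rw [e] at h1
      have h2 := hv _ h1
      have h3 : (-(LinearMap.dualMap x f)) v = -(f (x v)) := rfl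
      rw [h3, neg_eq_zero] at h2
      exact h2
    rcases hCC with h | h
    · exfalso
      have h1 : E u₁ ∈ C := by
        intro f hf
        have := hkey _ hf (E u₁)
        rw [hpE] at this
        show f (E u₁) = 0
        simp only [map_zero, neg_zero] at this
        exact this
      rw [h, Submodule.mem_bot] at h1
      apply huv
      have h2 := hFE u₁
      rw [h1, map_zero, hu₁] at h2
      rw [← h2, map_zero, LinearMap.zero_apply]
    · intro f hf
      ext v
      have : v ∈ C := by rw [h]; exact Submodule.mem_top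
      exact this f hf
  choose Φ hΦ using hB
  have huniq : ∀ v f, (v, f) ∈ G → f = Φ v := by
    intro v f hf
    have h1 := G.sub_mem hf (hΦ v)
    have e : (v, f) - (v, Φ v) = ((0 : V), f - Φ v) := Prod.ext (sub_self v) rfl
    rw [e] at h1
    exact sub_eq_zero.mp (hC _ h1)
  let Ψ : V →ₗ[K] Module.Dual K V :=
    { toFun := Φ
      map_add' := by
        intro a c
        have h1 := G.add_mem (hΦ a) (hΦ c)
        exact (huniq _ _ h1).symm
      map_smul' := by
        intro r a
        have h1 := G.smul_mem r (hΦ a)
        exact (huniq _ _ h1).symm }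
  have hΨ : ∀ v, Ψ v = Φ v := fun v => rfl
  refine ⟨LinearMap.flip Ψ, ?_, ?_⟩
  · intro h
    have h1 := hkey _ (hΦ v₁) (E u₁)
    rw [hpE, hFE, hu₁, hv₁] at h1
    have h2 : (LinearMap.flip Ψ) (E u₁) v₁ = Φ v₁ (E u₁) := rfl
    rw [h, LinearMap.zero_apply, LinearMap.zero_apply, h1] at h2
    exact huv (neg_eq_zero.mp h2.symm)
  · intro x hx v w
    show Φ w (x v) = -Φ (x w) v
    have h1 := hst x hx _ (hΦ w)
    have e : op x (w, Φ w) = (x w, -(LinearMap.dualMap x (Φ w))) := rfl
    rw [e] at h1
    have h2 := huniq _ _ h1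
    rw [← h2]
    show _ = - -(Φ w (x v))
    rw [neg_neg]

end Pool.Agent.OU
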