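import Pool.Agent.Lib_helper24.K0.S1
import Pool.Agent.Lib_helper24.K0.S3

/-! Forms on irreducible spaces for the Clifford relations. -/

set_option linter.unusedSectionVars false
set_option linter.unusedSimpArgs false

namespace Pool.Agent.OU

open Module Pool.Agent.OT

variable {K : Type*} [Field K] [CharZero K] [IsAlgClosed K]
variable {V : Type*} [AddCommGroup V] [Module K V] [FiniteDimensional K V]

/-- Existence of a form on an irreducible space for the Clifford relations. -/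
theorem Cl.exForm (t : ℕ) : ∀ {d : ℕ} (δ : K) (_ : d = 2 * t ∨ (d = 2 * t + 1 ∧ (-1) ^ t * δ = 1))
    {γ : Fin d → Module.End K V} {W : Submodule K V}, Cl γ W → Irr γ W → δ * δ = 1 →
    ∃ b : V →ₗ[K] V →ₗ[K] K, (∃ u ∈ W, ∃ v ∈ W, b u v ≠ 0) ∧
      ∀ i, ∀ u ∈ W, ∀ v ∈ W, b (γ i u) v = δ * b u (γ i v) := by
  induction t with
  | zero =>
    intro d δ hd γ W hC hW hδ
    have hfr : finrank K W = 1 := by
      rcases hd with rfl | ⟨rfl, -⟩
      · have : IsEmpty (Fin (2 * 0)) := by rw [mul_zero]; infer_instance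
        exact hW.line
      · exact hC.base1 hW
    obtain ⟨w, hw, hw0⟩ := Submodule.exists_mem_ne_zero_of_ne_bot hW.ne
    have hall : ∀ u ∈ W, ∃ c : K, c • w = u := by
      intro u hu
      obtain ⟨c, hc⟩ := (finrank_eq_one_iff_of_nonzero' (⟨w, hw⟩ : W)
        (fun h => hw0 (congrArg Subtype.val h))).mp hfr ⟨u, hu⟩
      exact ⟨c, congrArg Subtype.val hc⟩
    obtain ⟨f, hf⟩ : ∃ f : Module.Dual K V, f w ≠ 0 := by
      by_contra h
      push Not at h
      exact hw0 ((Module.forall_dual_apply_eq_zero_iff K w).mp h)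
    refine ⟨LinearMap.smulRight f f, ⟨w, hw, w, hw, ?_⟩, ?_⟩
    · show f w • f w ≠ 0
      exact mul_ne_zero hf hf
    · rcases hd with rfl | ⟨rfl, hδ1⟩
      · intro i; exact absurd i.2 (by omega)
      · rw [pow_zero, one_mul] at hδ1
        intro i u hu v hv
        obtain ⟨a, rfl⟩ := hall u hu
        obtain ⟨c, rfl⟩ := hall v hv
        obtain ⟨e, he⟩ := hall (γ i w) (hW.st i w hw)
        show f (γ i (a • w)) • f (c • w) = δ * (f (a • w) • f (γ i (c • w)))
        rw [hδ1, one_mul]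
        simp only [map_smul, ← he, smul_eq_mul]
        ring
  | succ t ih =>
    intro d δ hd γ W hC hW hδ
    obtain ⟨m, rfl⟩ : ∃ m, d = m + 1 + 1 := ⟨d - 2, by omega⟩
    have hm : m = 2 * t ∨ (m = 2 * t + 1 ∧ (-1) ^ t * (-δ) = 1) := by
      rcases hd with h | ⟨h, h'⟩
      · left; omega
      · right; refine ⟨by omega, ?_⟩
        rw [pow_succ] at h'
        linear_combination h'
    obtain ⟨ι, hι⟩ := IsAlgClosed.exists_pow_nat_eq (-1 : K) (n := 2) (by norm_num)
    rw [pow_two] at hι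
    obtain ⟨l, hl⟩ : ∃ l, l = Fin.last (m + 1) := ⟨_, rfl⟩
    have hmem : ∀ u ∈ Wp γ ι W, u ∈ W := fun u hu => (mem_Wp.mp hu).1
    obtain ⟨b', ⟨u₀, hu₀, v₀, hv₀, huv⟩, hb'⟩ := ih (-δ) hm (hC.lo_Cl (W := W) hι hW)
      (hC.Wp_irr hι hW) (by rw [neg_mul_neg, hδ])
    -- the projections
    obtain ⟨π, hπ⟩ : ∃ π : Module.End K V, π = (1/2 : K) • (1 + PP γ ι) := ⟨_, rfl⟩
    obtain ⟨ρ, hρ⟩ : ∃ ρ : Module.End K V, ρ = (1/2 : K) • (γ l * (1 - PP γ ι)) := ⟨_, rfl⟩
    have πv : ∀ u, π u = (1/2 : K) • (u + PP γ ι u) := by intro u; rw [hπ]; rfl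
    have ρv : ∀ u, ρ u = (1/2 : K) • γ l (u - PP γ ι u) := by intro u; rw [hρ]; rfl
    have PPW := hC.PPsq hι hW
    have Pg := hC.Pg hι hW
    have Pst := hC.Pst hι hW
    rw [← hl] at Pg
    have πm : ∀ u ∈ W, π u ∈ Wp γ ι W := by
      intro u hu
      rw [mem_Wp, πv]
      refine ⟨W.smul_mem _ (W.add_mem hu (Pst u hu)), ?_⟩
      rw [map_smul, map_add, PPW u hu, add_comm]
    have ρm : ∀ u ∈ W, ρ u ∈ Wp γ ι W := by
      intro u hu
      rw [mem_Wp, ρv]
      have h1 : u - PP γ ι u ∈ W := W.sub_mem hu (Pst u hu)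
      refine ⟨W.smul_mem _ (hW.st l _ h1), ?_⟩
      rw [map_smul, Pg _ h1, map_sub, PPW u hu, ← map_neg, neg_sub]
    have hgst : ∀ u ∈ W, γ l u ∈ W := fun u hu => hW.st l u hu
    have gg : ∀ u ∈ W, γ l (γ l u) = u := fun u hu => hC.sq l u hu
    -- π γ = ρ, ρ γ = π
    have πγ : ∀ u ∈ W, π (γ l u) = ρ u := by
      intro u hu
      rw [πv, ρv, Pg u hu, map_sub, sub_eq_add_neg]
    have ργ : ∀ u ∈ W, ρ (γ l u) = π u := by
      intro u hu
      rw [πv, ρv, Pg u hu, sub_neg_eq_add, ← map_add, gg _ (W.add_mem hu (Pst u hu))]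
    have πP : ∀ u ∈ W, π (PP γ ι u) = π u := by
      intro u hu
      rw [πv, πv, PPW u hu, add_comm]
    have ρP : ∀ u ∈ W, ρ (PP γ ι u) = -ρ u := by
      intro u hu
      rw [ρv, ρv, PPW u hu, ← smul_neg, ← map_neg, neg_sub]
    obtain ⟨b, hb⟩ : ∃ b : V →ₗ[K] V →ₗ[K] K, ∀ u v, b u v = b' (ρ u) (π v) + δ * b' (π u) (ρ v) :=
      ⟨(b'.comp ρ).compl₂ π + δ • (b'.comp π).compl₂ ρ, fun u v => rfl⟩
    -- the last operator
    have h1 : ∀ u ∈ W, ∀ v ∈ W, b (γ l u) v = δ * b u (γ l v) := by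
      intro u hu v hv
      rw [hb, hb, ργ u hu, πγ u hu, πγ v hv, ργ v hv]
      linear_combination (-(b' (π u) (π v))) * hδ
    -- PP is skew
    have h2 : ∀ u ∈ W, ∀ v ∈ W, b (PP γ ι u) v = -b u (PP γ ι v) := by
      intro u hu v hv
      rw [hb, hb, ρP u hu, πP u hu, πP v hv, ρP v hv, map_neg, map_neg, LinearMap.neg_apply]
      ring
    refine ⟨b, ⟨γ l u₀, hgst _ (hmem _ hu₀), v₀, hmem _ hv₀, ?_⟩, ?_⟩
    · have hu := mem_Wp.mp hu₀
      have hv := mem_Wp.mp hv₀
      have e1 : π u₀ = u₀ := by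
        rw [πv, hu.2, ← two_smul K, smul_smul]; norm_num
      have e2 : π v₀ = v₀ := by
        rw [πv, hv.2, ← two_smul K, smul_smul]; norm_num
      have e3 : ρ u₀ = 0 := by
        rw [ρv, hu.2, sub_self, map_zero, smul_zero]
      rw [hb, ργ _ hu.1, πγ _ hu.1, e1, e2, e3, map_zero, LinearMap.zero_apply, mul_zero, add_zero]
      exact huv
    · intro i
      rcases last_or i with hi | ⟨i, rfl⟩
      · rw [hi, ← hl]; exact h1
      rcases last_or i with hi | ⟨j, rfl⟩
      · -- the second last operator is a multiple of γ l PP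
        rw [hi]
        have e : ∀ u ∈ W, γ (Fin.last m).castSucc u = (-ι) • γ l (PP γ ι u) := by
          intro u hu
          rw [PP_apply, map_smul, ← hl, gg _ (hW.st _ u hu), smul_smul]
          have : -ι * ι = 1 := by rw [neg_mul, hι, neg_neg]
          rw [this, one_smul]
        intro u hu v hv
        rw [e u hu, e v hv, map_smul, LinearMap.smul_apply, map_smul, h1 _ (Pst u hu) v hv,
          h2 u hu _ (hgst v hv), Pg v hv, map_neg, neg_neg, smul_eq_mul, smul_eq_mul]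
        ring
      · -- the others
        intro u hu v hv
        have n1 : j.castSucc.castSucc ≠ l := by rw [hl]; exact cs_ne _
        have n2 : j.castSucc.castSucc ≠ (Fin.last m).castSucc := by
          intro h0; exact cs_ne j (Fin.castSucc_injective _ h0)
        have g1 : ∀ w ∈ W, γ l (γ j.castSucc.castSucc w) = -γ j.castSucc.castSucc (γ l w) :=
          fun w hw => hC.anti n1.symm w hw
        have g2 : ∀ w ∈ W, PP γ ι (γ j.castSucc.castSucc w) = γ j.castSucc.castSucc (PP γ ι w) := by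
          intro w hw
          rw [PP_apply, PP_apply, ← hl, hC.anti n2.symm w hw, map_neg, g1 _ (hW.st _ w hw), neg_neg,
            map_smul]
        have g3 : ∀ w ∈ W, π (γ j.castSucc.castSucc w) = γ j.castSucc.castSucc (π w) := by
          intro w hw
          rw [πv, πv, g2 w hw, map_smul, map_add]
        have g4 : ∀ w ∈ W, ρ (γ j.castSucc.castSucc w) = -γ j.castSucc.castSucc (ρ w) := by
          intro w hw
          rw [ρv, ρv, g2 w hw, ← map_sub, g1 _ (W.sub_mem hw (Pst w hw)), map_smul, smul_neg]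
        have k1 : b' (γ j.castSucc.castSucc (ρ u)) (π v)
            = -δ * b' (ρ u) (γ j.castSucc.castSucc (π v)) := hb' j _ (ρm u hu) _ (πm v hv)
        have k2 : b' (γ j.castSucc.castSucc (π u)) (ρ v)
            = -δ * b' (π u) (γ j.castSucc.castSucc (ρ v)) := hb' j _ (πm u hu) _ (ρm v hv)
        rw [hb, hb, g3 u hu, g4 u hu, g3 v hv, g4 v hv, map_neg, map_neg, LinearMap.neg_apply, k1, k2]
        ring

end Pool.Agent.OU
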