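import Pool.Agent.Lib_helper24.K0.S4

/-! Two orthogonal pairs filling the space: self-duality. -/

set_option linter.unusedSectionVars false
set_option linter.unusedSimpArgs false

namespace Pool.Agent.OU

open Module Pool.Agent.OT

variable {K : Type*} [Field K] [CharZero K] [IsAlgClosed K]
variable {V : Type*} [AddCommGroup V] [Module K V] [FiniteDimensional K V]
variable {L : Submodule K (Module.End K V)}
variable {s E F p q E' F' p' q' x₀ : Module.End K V} {κ : K}

namespace CfgU

/-- A form on the range of q for which the Clifford operators are skew gives an invariant form. -/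
theorem ofCl (C : CfgU L s κ E F p q E' F' p' q' x₀) (hn : 4 * rk E = finrank K V)
    {d : ℕ} {γ w : Fin d → Module.End K V}
    (hw : ∀ i, T1 L p q (w i) ∧ T1 L p' q' (w i) ∧ bb F F' (rk E : K) x₀ (w i) = 0)
    (hγ : ∀ i u, q u = u → γ i u = F (w i (F' (x₀ u))))
    (hM : ∀ x, T1 L p q x → T1 L p' q' x → bb F F' (rk E : K) x₀ x = 0 →
        ∃ a : Fin d → K, x = ∑ i, a i • w i)
    (b : V →ₗ[K] V →ₗ[K] K) (hb0 : ∃ u ∈ LinearMap.range q, ∃ v ∈ LinearMap.range q, b u v ≠ 0)
    (hb : ∀ i, ∀ u ∈ LinearMap.range q, ∀ v ∈ LinearMap.range q, b (γ i u) v = (-1) * b u (γ i v)) :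
    SelfDual L := by
  have D := C.D
  have hqr : ∀ u, q u = u → u ∈ LinearMap.range q := fun u hu => ⟨u, hu⟩
  have hqq : ∀ u, q (q u) = q u := fun u => LinearMap.congr_fun D.A.toTri.qq u
  have hqF : ∀ u, q (F u) = F u := fun u => LinearMap.congr_fun D.A.toTri.qF u
  have b00 : bb F F' (rk E : K) x₀ x₀ = 2 := by
    have h := D.bb_eq C.E0 C.h1 C.h2 C.h1 C.h2
    rw [C.xFx', ← two_smul K] at h
    have h2 : ((2 : K) - bb F F' (rk E : K) x₀ x₀) • E = 0 := by rw [sub_smul, h, sub_self]
    exact (sub_eq_zero.mp ((smul_eq_zero.mp h2).resolve_right C.E0)).symm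
  have hdec : ∀ x, T1 L p q x → T1 L p' q' x → ∃ c : K, ∃ m, T1 L p q m ∧ T1 L p' q' m ∧
      bb F F' (rk E : K) x₀ m = 0 ∧ x = c • x₀ + m := by
    intro x h1 h2
    refine ⟨bb F F' (rk E : K) x₀ x / 2, x - (bb F F' (rk E : K) x₀ x / 2) • x₀,
      h1.sub (C.h1.smul _), h2.sub (C.h2.smul _), ?_, by abel⟩
    rw [map_sub, map_smul, b00, smul_eq_mul]; ring
  -- skewness for all elements orthogonal to x₀
  have sk : ∀ m, T1 L p q m → T1 L p' q' m → bb F F' (rk E : K) x₀ m = 0 → ∀ u v, q u = u → q v = v →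
      b (F (m (F' (x₀ u)))) v = -b u (F (m (F' (x₀ v)))) := by
    intro m h1 h2 h3 u v hu hv
    obtain ⟨a, rfl⟩ := hM m h1 h2 h3
    simp only [LinearMap.sum_apply, LinearMap.smul_apply, map_sum, map_smul, smul_eq_mul]
    rw [← Finset.sum_neg_distrib]
    refine Finset.sum_congr rfl fun i _ => ?_
    have h4 := hb i u (hqr u hu) v (hqr v hv)
    rw [hγ i u hu, hγ i v hv] at h4
    rw [h4]; ring
  -- the expansion of F x F' y on the range of q
  have kx : ∀ u, q u = u → F (x₀ (F' (x₀ u))) = u := by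
    intro u hu
    have e1 : x₀ (F' (x₀ u)) = E u := LinearMap.congr_fun C.xFx' u
    have e2 : F (E u) = q u := LinearMap.congr_fun D.A.FE u
    rw [e1, e2, hu]
  have kp : ∀ m, T1 L p q m → T1 L p' q' m → bb F F' (rk E : K) x₀ m = 0 → ∀ u,
      F (x₀ (F' (m u))) = -(F (m (F' (x₀ u)))) := by
    intro m h1 h2 h3 u
    have e2 : x₀ (F' (m u)) = -(m (F' (x₀ u))) := LinearMap.congr_fun (C.perp h1 h2 h3).1 u
    rw [e2, map_neg]
  have km : ∀ m m', T1 L p q m → T1 L p' q' m → bb F F' (rk E : K) x₀ m = 0 →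
      T1 L p q m' → T1 L p' q' m' → bb F F' (rk E : K) x₀ m' = 0 → ∀ u, q u = u →
      F (m (F' (m' u))) = -(F (m (F' (x₀ (F (m' (F' (x₀ u)))))))) := by
    intro m m' _ _ _ g1 g2 g3 u hu
    have h2 := LinearMap.congr_fun (C.clif m g1 g2 g3) u
    have e1 : (F * (m * (F' * (x₀ * q))) * (F * (m' * (F' * (x₀ * q))))) u
        = F (m (F' (x₀ (q (F (m' (F' (x₀ (q u))))))))) := rfl
    have e2 : (-(F * (m * (F' * (m' * q))))) u = -(F (m (F' (m' (q u))))) := rfl
    rw [e1, e2, hu, hqF] at h2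
    rw [h2, neg_neg]
  have hK : ∀ x y, T1 L p q x → T1 L p' q' x → T1 L p q y → T1 L p' q' y → ∀ u v, q u = u →
      q v = v → b (F (x (F' (y u)))) v = b u (F (y (F' (x v)))) := by
    intro x y h1 h2 g1 g2 u v hu hv
    obtain ⟨a, m, m1, m2, m3, rfl⟩ := hdec x h1 h2
    obtain ⟨c, m', n1, n2, n3, rfl⟩ := hdec y g1 g2
    have e : ∀ (a c : K) (m m' : Module.End K V) (u : V),
        F ((a • x₀ + m) (F' ((c • x₀ + m') u))) = (a * c) • F (x₀ (F' (x₀ u)))
          + a • F (x₀ (F' (m' u))) + c • F (m (F' (x₀ u))) + F (m (F' (m' u))) := by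
      intro a c m m' u
      simp only [LinearMap.add_apply, LinearMap.smul_apply, map_add, map_smul, smul_add, smul_smul]
      rw [mul_comm c a]; abel
    rw [e, e, kx u hu, kx v hv, kp m' n1 n2 n3, kp m m1 m2 m3, km m m' m1 m2 m3 n1 n2 n3 u hu,
      km m' m n1 n2 n3 m1 m2 m3 v hv]
    have s1 := sk m' n1 n2 n3 u v hu hv
    have s2 := sk m m1 m2 m3 u v hu hv
    have s3 := sk m m1 m2 m3 (F (m' (F' (x₀ u)))) v (hqF _) hv
    have s4 := sk m' n1 n2 n3 u (F (m (F' (x₀ v)))) hu (hqF _)
    simp only [map_add, map_smul, map_neg, LinearMap.add_apply, LinearMap.smul_apply,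
      LinearMap.neg_apply, smul_eq_mul, s1, s2, s3, s4]
    ring
  -- the product of two elements of degree one
  have hpr : ∀ x y' : Module.End K V, T1 L p q x → T1 L p' q' x → T1 L p q y' → T1 L p' q' y' →
      ∀ w', w' = -(F' * y' - y' * F') → pr F (rk E : K) x w' = -bb F F' (rk E : K) x y' := by
    intro x y' h1 h2 g1 g2 w' hw'
    have hpol := D.bb_eq C.E0 h1 h2 g1 g2
    have e : x * w' - w' * x = (x * y') * F' + F' * (y' * x) - (x * (F' * y') + y' * (F' * x)) := by
      rw [hw']; noncomm_ring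
    rw [D.xx h1 h2 g1 g2, D.xx g1 g2 h1 h2, zero_mul, mul_zero, zero_add, zero_sub, hpol] at e
    rw [pr_def, e, mul_neg, mul_smul_comm, D.A.FE, map_neg, map_smul, D.A.toTri.trq, smul_eq_mul,
      neg_div, mul_div_assoc, div_self (D.A.toTri.r0 C.E0), mul_one]
  have hsym : ∀ x y, bb F F' (rk E : K) x y = bb F F' (rk E : K) y x := bb_symm F F' (rk E : K)
  refine C.S.lift D.A.toTri b ?_ ?_
  · intro t t' ht ht' u v hu hv
    obtain ⟨x, z, w, x1, x2, z1, z2, w1, w2, rfl⟩ := D.dec ht
    obtain ⟨x', z', w', x1', x2', z1', z2', w1', w2', rfl⟩ := D.dec ht'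
    rw [C.no10 hn z1 z2, C.no10 hn z1' z2', add_zero, add_zero]
    have hbk := w2.back D.B.toTri
    have hbk' := w2'.back D.B.toTri
    have y1 : T1 L p q (w * E' - E' * w) := (D.symm.T0E.brk1 D.A.brk w1).flip
    have y2 : T1 L p' q' (w * E' - E' * w) := D.B.toTri.gE w2
    have y1' : T1 L p q (w' * E' - E' * w') := (D.symm.T0E.brk1 D.A.brk w1').flip
    have y2' : T1 L p' q' (w' * E' - E' * w') := D.B.toTri.gE w2'
    obtain ⟨y, hy⟩ : ∃ y, y = w * E' - E' * w := ⟨_, rfl⟩
    obtain ⟨y', hy'⟩ : ∃ y', y' = w' * E' - E' * w' := ⟨_, rfl⟩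
    rw [← hy] at hbk y1 y2
    rw [← hy'] at hbk' y1' y2'
    have hF'q : ∀ u, q u = u → F' u = 0 := by
      intro u hu
      rw [← hu]; exact LinearMap.congr_fun D.symm.Fq u
    have hwu : ∀ u, q u = u → w u = -(F' (y u)) := by
      intro u hu
      have := LinearMap.congr_fun hbk u
      rw [LinearMap.neg_apply, LinearMap.sub_apply, Module.End.mul_apply, Module.End.mul_apply,
        hF'q u hu, map_zero, sub_zero] at this
      exact this
    have hwu' : ∀ u, q u = u → w' u = -(F' (y' u)) := by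
      intro u hu
      have := LinearMap.congr_fun hbk' u
      rw [LinearMap.neg_apply, LinearMap.sub_apply, Module.End.mul_apply, Module.End.mul_apply,
        hF'q u hu, map_zero, sub_zero] at this
      exact this
    have ww : ∀ w w' : Module.End K V, T1 L q' p' w → T1 L p q w' → T1 L q' p' w' → ∀ u, q u = u →
        w (w' u) = 0 := by
      intro w w' g1 g2 g3 u hu
      have h1 : w' u = w' (q u) := by rw [hu]
      have h2 : w' (q u) = q' (w' u) := (LinearMap.congr_fun (D.dm g2 g3).1 u).symm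
      rw [h1, h2]
      exact LinearMap.congr_fun g1.xp _
    have FE : ∀ u, q u = u → F (E u) = u := by
      intro u hu
      have : F (E u) = q u := LinearMap.congr_fun D.A.FE u
      rw [this, hu]
    have wx : ∀ x' w : Module.End K V, T1 L p q x' → T1 L p q w → ∀ u,
        w (x' u) = x' (w u) - pr F (rk E : K) x' w • E u := by
      intro x' w g1 g2 u
      have := LinearMap.congr_fun (g1.brk_eq D.A.toTri C.E0 g2) u
      rw [LinearMap.sub_apply, LinearMap.smul_apply, Module.End.mul_apply,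
        Module.End.mul_apply] at this
      rw [← this]; abel
    -- F (x + w) (x' + w') u
    have e1 : F ((x' + w') ((x + w) u)) = -(F (x' (F' (y u)))) - F (x (F' (y' u)))
        + bb F F' (rk E : K) x y' • u := by
      have g1 : x' (x u) = 0 := LinearMap.congr_fun (D.xx x1' x2' x1 x2) u
      have g2 := ww w' w w2' w1 w2 u hu
      rw [hwu u hu, map_neg, neg_eq_zero] at g2
      have g3 := wx x w' x1 w1' u
      rw [hpr x y' x1 x2 y1' y2' w' hbk', neg_smul, sub_neg_eq_add] at g3
      simp only [LinearMap.add_apply, map_add, g1, g2, g3, hwu u hu, hwu' u hu, map_neg, map_smul,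
        FE u hu, zero_add, add_zero]
      abel
    have e2 : F ((x + w) ((x' + w') v)) = -(F (x (F' (y' v)))) - F (x' (F' (y v)))
        + bb F F' (rk E : K) x' y • v := by
      have g1 : x (x' v) = 0 := LinearMap.congr_fun (D.xx x1 x2 x1' x2') v
      have g2 := ww w w' w2 w1' w2' v hv
      rw [hwu' v hv, map_neg, neg_eq_zero] at g2
      have g3 := wx x' w x1' w1 v
      rw [hpr x' y x1' x2' y1 y2 w hbk, neg_smul, sub_neg_eq_add] at g3
      simp only [LinearMap.add_apply, map_add, g1, g2, g3, hwu v hv, hwu' v hv, map_neg, map_smul,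
        FE v hv, zero_add, add_zero]
      abel
    rw [e1, e2]
    have k1 := hK x' y x1' x2' y1 y2 u v hu hv
    have k2 := hK x y' x1 x2 y1' y2' u v hu hv
    -- symmetrisation of the polar form
    have c1 : F (y (F' (x' v))) = bb F F' (rk E : K) x' y • v - F (x' (F' (y v))) := by
      have h1 := LinearMap.congr_fun (D.bb_eq C.E0 x1' x2' y1 y2) v
      have h2 := congrArg F h1
      have h3 : F ((x' * (F' * y) + y * (F' * x')) v) = F (x' (F' (y v))) + F (y (F' (x' v))) := by
        rw [← map_add]; rfl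
      rw [h3, LinearMap.smul_apply, map_smul, FE v hv] at h2
      rw [← h2]; abel
    have c2 : F (y' (F' (x v))) = bb F F' (rk E : K) x y' • v - F (x (F' (y' v))) := by
      have h1 := LinearMap.congr_fun (D.bb_eq C.E0 x1 x2 y1' y2') v
      have h2 := congrArg F h1
      have h3 : F ((x * (F' * y') + y' * (F' * x)) v) = F (x (F' (y' v))) + F (y' (F' (x v))) := by
        rw [← map_add]; rfl
      rw [h3, LinearMap.smul_apply, map_smul, FE v hv] at h2
      rw [← h2]; abel
    rw [c1] at k1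
    rw [c2] at k2
    simp only [map_add, map_sub, map_neg, map_smul, LinearMap.add_apply, LinearMap.sub_apply,
      LinearMap.neg_apply, LinearMap.smul_apply, smul_eq_mul, k1, k2]
    ring
  · obtain ⟨u, ⟨u', hu⟩, v, ⟨v', hv⟩, h⟩ := hb0
    refine ⟨u, v, ?_, ?_, h⟩
    · rw [← hu, hqq]
    · rw [← hv, hqq]

/-- The dimensions are those of a spin representation, and L is self-dual unless t is even. -/
theorem spin' (C : CfgU L s κ E F p q E' F' p' q' x₀) (hn : 4 * rk E = finrank K V) :
    ∃ t, rk E = 2 ^ t ∧ (SelfDual L ∨ Even t) := by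
  obtain ⟨d, γ, w, hCl, hIrr, hw, hγ, hM⟩ := C.spinData hn
  obtain ⟨t, ht⟩ : ∃ t, d = 2 * t ∨ d = 2 * t + 1 := ⟨d / 2, by omega⟩
  refine ⟨t, ?_, ?_⟩
  · rw [← C.D.A.toTri.rkq]
    exact Cl.dimU t ht hCl hIrr
  · rcases Nat.even_or_odd t with h | h
    · right; exact h
    · left
      obtain ⟨b, hb0, hb⟩ := Cl.exForm t (-1 : K) (by
        rcases ht with ht | ht
        · left; exact ht
        · right
          refine ⟨ht, ?_⟩
          rw [h.neg_one_pow]; norm_num) hCl hIrr (by norm_num)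
      exact C.ofCl hn hw hγ hM b hb0 hb

end CfgU

end Pool.Agent.OU
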