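import Pool.Agent.Lib_helper48.OT.H1

/-! Irreducible spaces for the exterior power relations: uniqueness and duality. -/

set_option linter.unusedSectionVars false
set_option linter.unusedSimpArgs false

namespace Pool.Agent.OU

open Module Pool.Agent.OT

variable {K : Type*} [Field K] [CharZero K]
variable {V : Type*} [AddCommGroup V] [Module K V] [FiniteDimensional K V]
variable {V' : Type*} [AddCommGroup V'] [Module K V'] [FiniteDimensional K V']

/-- The space generated by a subspace on which the last idempotent is zero. -/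
theorem Ext.ind0 {n : ℕ} {A : Fin (n + 1) → Fin (n + 1) → Module.End K V} (h : Ext A)
    {W' : Submodule K V} (hW'0 : ∀ w ∈ W', A (Fin.last n) (Fin.last n) w = 0)
    (hW's : ∀ (i j : Fin n), ∀ w ∈ W', A i.castSucc j.castSucc w ∈ W') :
    ∃ W2 : Submodule K V, W' ≤ W2 ∧ (∀ i j, ∀ u ∈ W2, A i j u ∈ W2) ∧
      (∀ u ∈ W2, u - A (Fin.last n) (Fin.last n) u ∈ W') ∧
      ∀ P : Submodule K V, W' ≤ P → (∀ i j, ∀ u ∈ P, A i j u ∈ P) → W2 ≤ P := by
  obtain ⟨l, hl⟩ : ∃ l, l = Fin.last n := ⟨_, rfl⟩
  rw [← hl] at hW'0
  rw [← hl]
  have hjl : ∀ (j : Fin (n+1)), ∀ w ∈ W', A j l w = 0 := by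
    intro j w hw
    have := LinearMap.congr_fun (h.f1 l j) w
    rw [Module.End.mul_apply, hW'0 w hw, map_zero] at this
    exact this.symm
  obtain ⟨W2, hW2⟩ : ∃ W2, W2 = Submodule.span K {v | v ∈ W' ∨ ∃ (i : Fin n) (w : V), w ∈ W' ∧
    v = A l i.castSucc w} := ⟨_, rfl⟩
  have g1 : ∀ w ∈ W', w ∈ W2 := by
    intro w hw; rw [hW2]; exact Submodule.subset_span (Or.inl hw)
  have g2 : ∀ (i : Fin n), ∀ w ∈ W', A l i.castSucc w ∈ W2 := by
    intro i w hw; rw [hW2]; exact Submodule.subset_span (Or.inr ⟨i, w, hw, rfl⟩)
  have hst2 : ∀ i j, ∀ u ∈ W2, A i j u ∈ W2 := by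
    intro i j u hu
    rw [hW2] at hu
    induction hu using Submodule.span_induction with
    | mem v hv =>
      rcases hv with hv | ⟨m, w, hw, rfl⟩
      · rcases last_or j with hj | ⟨j, rfl⟩
        · rw [hj, ← hl, hjl i v hv]; exact W2.zero_mem
        rcases last_or i with hi | ⟨i, rfl⟩
        · rw [hi, ← hl]; exact g2 j v hv
        · exact g1 _ (hW's i j v hv)
      · have hm : m.castSucc ≠ l := by rw [hl]; exact cs_ne m
        rcases last_or j with hj | ⟨j, rfl⟩
        · rw [hj, ← hl]
          rcases last_or i with hi | ⟨i, rfl⟩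
          · rw [hi, ← hl]
            have := LinearMap.congr_fun (h.f3 l hm) w
            rw [Module.End.mul_apply] at this
            rw [this]; exact g2 m w hw
          · have := LinearMap.congr_fun (h.f8 l (j := i.castSucc) hm) w
            rw [Module.End.mul_apply, LinearMap.sub_apply, Module.End.mul_apply, hW'0 w hw, map_zero,
              sub_zero] at this
            rw [this]; exact g1 _ (hW's i m w hw)
        have hj : j.castSucc ≠ l := by rw [hl]; exact cs_ne j
        rcases last_or i with hi | ⟨i, rfl⟩
        · rw [hi, ← hl]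
          have := LinearMap.congr_fun (h.f6 l (i := m.castSucc) hj) w
          rw [Module.End.mul_apply] at this
          rw [this]; exact W2.zero_mem
        · have := LinearMap.congr_fun (h.f10 l (i := m.castSucc) (j := i.castSucc) hj) w
          rw [Module.End.mul_apply] at this
          rw [this, LinearMap.sub_apply, Module.End.mul_apply]
          refine W2.sub_mem ?_ (g2 j _ (hW's i m w hw))
          split_ifs
          · exact g2 m w hw
          · rw [LinearMap.zero_apply]; exact W2.zero_mem
    | zero => rw [map_zero]; exact W2.zero_mem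
    | add a b _ _ ha hb => rw [map_add]; exact W2.add_mem ha hb
    | smul r a _ ha => rw [map_smul]; exact W2.smul_mem _ ha
  refine ⟨W2, g1, hst2, ?_, ?_⟩
  · intro u hu
    rw [hW2] at hu
    induction hu using Submodule.span_induction with
    | mem v hv =>
      rcases hv with hv | ⟨m, w, hw, rfl⟩
      · rw [hW'0 v hv, sub_zero]; exact hv
      · have hm : m.castSucc ≠ l := by rw [hl]; exact cs_ne m
        have := LinearMap.congr_fun (h.f3 l hm) w
        rw [Module.End.mul_apply] at this
        rw [this, sub_self]; exact W'.zero_mem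
    | zero => rw [map_zero, sub_zero]; exact W'.zero_mem
    | add a b _ _ ha hb =>
      have : a + b - A l l (a + b) = (a - A l l a) + (b - A l l b) := by rw [map_add]; abel
      rw [this]; exact W'.add_mem ha hb
    | smul r a _ ha =>
      have : r • a - A l l (r • a) = r • (a - A l l a) := by rw [map_smul, smul_sub]
      rw [this]; exact W'.smul_mem _ ha
  · intro P hP hPs
    rw [hW2, Submodule.span_le]
    rintro v (hv | ⟨i, w, hw, rfl⟩)
    · exact hP hv
    · exact hPs _ _ _ (hP hw)

/-- The relations on a product. -/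
theorem Ext.prod {n : ℕ} {A : Fin n → Fin n → Module.End K V} {A' : Fin n → Fin n → Module.End K V'}
    (h : Ext A) (h' : Ext A') :
    Ext (fun i j => (LinearMap.prodMap (A i j) (A' i j) : Module.End K (V × V'))) := by
  have key : ∀ (c : Prop) [Decidable c] (P : Module.End K V) (Q : Module.End K V'),
      (if c then (LinearMap.prodMap P Q : Module.End K (V × V')) else 0)
        = LinearMap.prodMap (if c then P else 0) (if c then Q else 0) := by
    intro c _ P Q
    split_ifs
    · rfl
    · rfl
  refine ⟨?_, ?_⟩
  · intro i j k l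
    rw [key, key]
    refine LinearMap.ext fun z => Prod.ext ?_ ?_
    · have := LinearMap.congr_fun (h.R1 i j k l) z.1
      exact this
    · have := LinearMap.congr_fun (h'.R1 i j k l) z.2
      exact this
  · intro i j k l
    rw [key, key]
    refine LinearMap.ext fun z => Prod.ext ?_ ?_
    · have := LinearMap.congr_fun (h.R2 i j k l) z.1
      exact this
    · have := LinearMap.congr_fun (h'.R2 i j k l) z.2
      exact this

/-- If the zero part vanishes, the trace is n + 1. -/
theorem Ext.c_of_one {n : ℕ} {A : Fin (n + 1) → Fin (n + 1) → Module.End K V} (h : Ext A)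
    {W : Submodule K V} (hW : Irr (unc A) W) (h0 : W0 A W = ⊥) {c : K}
    (hc : ∀ u ∈ W, ∑ i, A i i u = c • u) : c = ((n + 1 : ℕ) : K) := by
  have hone := h.all_one hW h0
  obtain ⟨u, hu, hu0⟩ := Submodule.exists_mem_ne_zero_of_ne_bot hW.ne
  have h1 := hc u hu
  rw [Finset.sum_congr rfl (fun i _ => hone i u hu), Finset.sum_const, Finset.card_univ,
    Fintype.card_fin, ← Nat.cast_smul_eq_nsmul K] at h1
  have h2 : (((n + 1 : ℕ) : K) - c) • u = 0 := by rw [sub_smul, h1, sub_self]
  exact (sub_eq_zero.mp ((smul_eq_zero.mp h2).resolve_right hu0)).symm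

/-- If the zero part does not vanish, the trace is not n + 1. -/
theorem Ext.c_of_zero {n : ℕ} {A : Fin (n + 1) → Fin (n + 1) → Module.End K V} (h : Ext A)
    {W : Submodule K V} (hW : Irr (unc A) W) (h0 : W0 A W ≠ ⊥) {c : K}
    (hc : ∀ u ∈ W, ∑ i, A i i u = c • u) :
    c ≠ ((n + 1 : ℕ) : K) ∧ ∀ u ∈ W0 A W, ∑ i, low A i i u = c • u := by
  have hs : ∀ u ∈ W0 A W, ∑ i, low A i i u = c • u := by
    intro u hu
    have hu' := mem_W0.mp hu
    have h1 := hc u hu'.1
    rw [Fin.sum_univ_castSucc, hu'.2, add_zero] at h1
    exact h1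
  refine ⟨?_, hs⟩
  obtain ⟨k, hk, hck, -⟩ := h.lowE.dim (h.W0_irr hW h0) hs
  rw [hck]
  intro h1
  have : k = n + 1 := by exact_mod_cast h1
  omega

/-- Irreducible spaces with the same trace are isomorphic. -/
theorem Ext.uniq {n : ℕ} : ∀ {A : Fin n → Fin n → Module.End K V}
    {A' : Fin n → Fin n → Module.End K V'}, Ext A → Ext A' →
    ∀ {W : Submodule K V} {W' : Submodule K V'}, Irr (unc A) W → Irr (unc A') W' →
    ∀ {c : K}, (∀ u ∈ W, ∑ i, A i i u = c • u) → (∀ u ∈ W', ∑ i, A' i i u = c • u) →
    ∃ Γ : Submodule K (V × V'), (∀ z ∈ Γ, z.1 ∈ W ∧ z.2 ∈ W') ∧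
      (∀ i j, ∀ z ∈ Γ, (A i j z.1, A' i j z.2) ∈ Γ) ∧ Γ ≠ ⊥ ∧
      (∀ z ∈ Γ, z.1 = 0 → z = 0) ∧ (∀ z ∈ Γ, z.2 = 0 → z = 0) := by
  induction n with
  | zero =>
    intro A A' _ _ W W' hW hW' c _ _
    obtain ⟨w, hw, hw0⟩ := Submodule.exists_mem_ne_zero_of_ne_bot hW.ne
    obtain ⟨w', hw', hw0'⟩ := Submodule.exists_mem_ne_zero_of_ne_bot hW'.ne
    refine ⟨Submodule.span K {(w, w')}, ?_, fun i => i.elim0, ?_, ?_, ?_⟩
    · intro z hz
      obtain ⟨a, rfl⟩ := Submodule.mem_span_singleton.mp hz
      exact ⟨W.smul_mem _ hw, W'.smul_mem _ hw'⟩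
    · intro h
      rw [Submodule.span_singleton_eq_bot] at h
      exact hw0 (congrArg Prod.fst h)
    · intro z hz h1
      obtain ⟨a, rfl⟩ := Submodule.mem_span_singleton.mp hz
      have : a • w = 0 := h1
      rw [(smul_eq_zero.mp this).resolve_right hw0, zero_smul]
    · intro z hz h1
      obtain ⟨a, rfl⟩ := Submodule.mem_span_singleton.mp hz
      have : a • w' = 0 := h1
      rw [(smul_eq_zero.mp this).resolve_right hw0', zero_smul]
  | succ n ih =>
    intro A A' h h' W W' hW hW' c hc hc'
    obtain ⟨l, hl⟩ : ∃ l, l = Fin.last n := ⟨_, rfl⟩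
    by_cases h0 : W0 A W = ⊥
    · have hcn := Ext.c_of_one h hW h0 hc
      have h0' : W0 A' W' = ⊥ := by
        by_contra hne
        exact (Ext.c_of_zero h' hW' hne hc').1 hcn
      have hone := h.all_one hW h0
      have hone' := h'.all_one hW' h0'
      have hW1 : W1 A W = W := le_antisymm inf_le_left (fun u hu => mem_W1.mpr ⟨hu, hone _ u hu⟩)
      have hW1' : W1 A' W' = W' :=
        le_antisymm inf_le_left (fun u hu => mem_W1.mpr ⟨hu, hone' _ u hu⟩)
      have I1 := h.W1_irr hW (by rw [hW1]; exact hW.ne)
      have I1' := h'.W1_irr hW' (by rw [hW1']; exact hW'.ne)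
      rw [hW1] at I1
      rw [hW1'] at I1'
      obtain ⟨Γ, G1, G2, G3, G4, G5⟩ := ih h.lowE h'.lowE I1 I1' (c := c - 1)
        (by
          intro u hu
          have h1 := hc u hu
          rw [Fin.sum_univ_castSucc, hone _ u hu] at h1
          rw [sub_smul, one_smul, ← h1, add_sub_cancel_right]; rfl)
        (by
          intro u hu
          have h1 := hc' u hu
          rw [Fin.sum_univ_castSucc, hone' _ u hu] at h1
          rw [sub_smul, one_smul, ← h1, add_sub_cancel_right]; rfl)
      refine ⟨Γ, G1, ?_, G3, G4, G5⟩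
      intro i j z hz
      obtain ⟨z1, z2⟩ := G1 z hz
      rcases last_or i with hi | ⟨i, rfl⟩
      · rcases last_or j with hj | ⟨j, rfl⟩
        · rw [hi, hj, hone _ _ z1, hone' _ _ z2]
          exact hz
        · rw [hi]
          have e1 := LinearMap.congr_fun (h.f2 (Fin.last n) (cs_ne j)) z.1
          have e2 := LinearMap.congr_fun (h'.f2 (Fin.last n) (cs_ne j)) z.2
          rw [Module.End.mul_apply, hone _ _ z1, LinearMap.zero_apply] at e1
          rw [Module.End.mul_apply, hone' _ _ z2, LinearMap.zero_apply] at e2
          rw [e1, e2]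
          exact Γ.zero_mem
      · rcases last_or j with hj | ⟨j, rfl⟩
        · rw [hj]
          have e1 := LinearMap.congr_fun (h.f4 (Fin.last n) (cs_ne i)) z.1
          have e2 := LinearMap.congr_fun (h'.f4 (Fin.last n) (cs_ne i)) z.2
          have k1 : A i.castSucc (Fin.last n) z.1 ∈ W := hW.st (i.castSucc, Fin.last n) _ z1
          have k2 : A' i.castSucc (Fin.last n) z.2 ∈ W' := hW'.st (i.castSucc, Fin.last n) _ z2
          rw [Module.End.mul_apply, hone _ _ k1, LinearMap.zero_apply] at e1
          rw [Module.End.mul_apply, hone' _ _ k2, LinearMap.zero_apply] at e2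
          rw [e1, e2]
          exact Γ.zero_mem
        · exact G2 i j z hz
    · obtain ⟨hcn, hs⟩ := Ext.c_of_zero h hW h0 hc
      have h0' : W0 A' W' ≠ ⊥ := by
        intro hb
        exact hcn (Ext.c_of_one h' hW' hb hc')
      obtain ⟨-, hs'⟩ := Ext.c_of_zero h' hW' h0' hc'
      obtain ⟨Γ₀, G1, G2, G3, G4, G5⟩ := ih h.lowE h'.lowE (h.W0_irr hW h0) (h'.W0_irr hW' h0') hs hs'
      obtain ⟨Γ, B1, B2, B3, B4⟩ := Ext.ind0 (Ext.prod h h') (W' := Γ₀)
        (by
          intro z hz
          obtain ⟨z1, z2⟩ := G1 z hz
          exact Prod.ext (mem_W0.mp z1).2 (mem_W0.mp z2).2)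
        (by
          intro i j z hz
          exact G2 i j z hz)
      have hle : Γ ≤ W.prod W' := by
        refine B4 _ ?_ ?_
        · intro z hz
          obtain ⟨z1, z2⟩ := G1 z hz
          exact ⟨(mem_W0.mp z1).1, (mem_W0.mp z2).1⟩
        · rintro i j z ⟨z1, z2⟩
          exact ⟨hW.st (i, j) _ z1, hW'.st (i, j) _ z2⟩
      refine ⟨Γ, fun z hz => hle hz, fun i j z hz => B2 i j z hz, ?_, ?_, ?_⟩
      · intro hb
        apply G3
        rw [eq_bot_iff, ← hb]
        exact B1
      · -- the part with first component zero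
        let N : Submodule K V' :=
          { carrier := {u | ((0 : V), u) ∈ Γ}
            zero_mem' := Γ.zero_mem
            add_mem' := by
              intro a b ha hb
              have := Γ.add_mem ha hb
              rw [Prod.mk_add_mk, add_zero] at this
              exact this
            smul_mem' := by
              intro r a ha
              have := Γ.smul_mem r ha
              rw [Prod.smul_mk, smul_zero] at this
              exact this }
        have hN : N = ⊥ ∨ N = W' := by
          refine hW'.irr N (fun u hu => (hle hu).2) ?_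
          rintro ⟨i, j⟩ u hu
          have := B2 i j _ hu
          have e : (LinearMap.prodMap (A i j) (A' i j)) ((0 : V), u) = ((0 : V), A' i j u) :=
            Prod.ext (map_zero (A i j)) rfl
          rw [e] at this
          exact this
        rcases hN with hN | hN
        · rintro ⟨a, u⟩ hz h1
          simp only at h1
          subst h1
          have : u ∈ N := hz
          rw [hN, Submodule.mem_bot] at this
          rw [this]; rfl
        · exfalso
          obtain ⟨w, hw, hw0⟩ := Submodule.exists_mem_ne_zero_of_ne_bot h0'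
          have hw' := mem_W0.mp hw
          have h1 : ((0 : V), w) ∈ Γ := by
            have : w ∈ N := by rw [hN]; exact hw'.1
            exact this
          have h2 := B3 _ h1
          have e : ((0 : V), w) - (LinearMap.prodMap (A (Fin.last n) (Fin.last n))
              (A' (Fin.last n) (Fin.last n))) ((0 : V), w) = ((0 : V), w) := by
            refine Prod.ext ?_ ?_
            · show (0 : V) - A (Fin.last n) (Fin.last n) 0 = 0
              rw [map_zero, sub_zero]
            · show w - A' (Fin.last n) (Fin.last n) w = w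
              rw [hw'.2, sub_zero]
          rw [e] at h2
          exact hw0 (congrArg Prod.snd (G4 _ h2 rfl))
      · -- the part with second component zero
        let N : Submodule K V :=
          { carrier := {u | (u, (0 : V')) ∈ Γ}
            zero_mem' := Γ.zero_mem
            add_mem' := by
              intro a b ha hb
              have := Γ.add_mem ha hb
              rw [Prod.mk_add_mk, add_zero] at this
              exact this
            smul_mem' := by
              intro r a ha
              have := Γ.smul_mem r ha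
              rw [Prod.smul_mk, smul_zero] at this
              exact this }
        have hN : N = ⊥ ∨ N = W := by
          refine hW.irr N (fun u hu => (hle hu).1) ?_
          rintro ⟨i, j⟩ u hu
          have := B2 i j _ hu
          have e : (LinearMap.prodMap (A i j) (A' i j)) (u, (0 : V')) = (A i j u, (0 : V')) :=
            Prod.ext rfl (map_zero (A' i j))
          rw [e] at this
          exact this
        rcases hN with hN | hN
        · rintro ⟨u, a⟩ hz h1
          simp only at h1
          subst h1
          have : u ∈ N := hz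
          rw [hN, Submodule.mem_bot] at this
          rw [this]; rfl
        · exfalso
          obtain ⟨w, hw, hw0⟩ := Submodule.exists_mem_ne_zero_of_ne_bot h0
          have hw' := mem_W0.mp hw
          have h1 : (w, (0 : V')) ∈ Γ := by
            have : w ∈ N := by rw [hN]; exact hw'.1
            exact this
          have h2 := B3 _ h1
          have e : (w, (0 : V')) - (LinearMap.prodMap (A (Fin.last n) (Fin.last n))
              (A' (Fin.last n) (Fin.last n))) (w, (0 : V')) = (w, (0 : V')) := by
            refine Prod.ext ?_ ?_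
            · show w - A (Fin.last n) (Fin.last n) w = w
              rw [hw'.2, sub_zero]
            · show (0 : V') - A' (Fin.last n) (Fin.last n) 0 = 0
              rw [map_zero, sub_zero]
          rw [e] at h2
          exact hw0 (congrArg Prod.fst (G5 _ h2 rfl))

end Pool.Agent.OU
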