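import Pool.Agent.Lib_helper24.K0.S6

/-! Irreducible spaces for the exterior power relations in the middle: an invariant form. -/

set_option linter.unusedSectionVars false
set_option linter.unusedSimpArgs false

namespace Pool.Agent.OU

open Module Pool.Agent.OT

variable {K : Type*} [Field K] [CharZero K]
variable {V : Type*} [AddCommGroup V] [Module K V] [FiniteDimensional K V]

/-- The dual operators. -/
def du {n : ℕ} (A : Fin n → Fin n → Module.End K V) (i j : Fin n) : Module.End K (Module.Dual K V) :=
  (if i = j then 1 else 0) - LinearMap.dualMap (A i j)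

theorem du_apply {n : ℕ} (A : Fin n → Fin n → Module.End K V) (i j : Fin n) (f : Module.Dual K V)
    (v : V) : du A i j f v = (if i = j then f v else 0) - f (A i j v) := by
  have e : du A i j f v = ((if i = j then (1 : Module.End K (Module.Dual K V)) else 0) f) v
      - f (A i j v) := rfl
  rw [e]
  congr 1
  split_ifs
  · rfl
  · rfl

theorem Ext.du {n : ℕ} {A : Fin n → Fin n → Module.End K V} (h : Ext A) : Ext (du A) := by
  have hsym : ∀ (a b : Fin n) (c d : K), (if a = b then c else d) = if b = a then c else d := by
    intro a b c d
    simp only [eq_comm]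
  have app : ∀ (c : Prop) [Decidable c] (P : Module.End K (Module.Dual K V)) (f : Module.Dual K V)
      (v : V), ((if c then P else 0) f) v = if c then P f v else 0 := by
    intro c _ P f v
    split_ifs <;> rfl
  have app' : ∀ (c : Prop) [Decidable c] (P : Module.End K V) (f : Module.Dual K V)
      (v : V), f ((if c then P else 0) v) = if c then f (P v) else 0 := by
    intro c _ P f v
    split_ifs
    · rfl
    · rw [LinearMap.zero_apply, map_zero]
  refine ⟨?_, ?_⟩
  · intro i j k l
    ext f v
    rw [LinearMap.add_apply, LinearMap.add_apply, LinearMap.add_apply, LinearMap.add_apply, app, app,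
      Module.End.mul_apply, Module.End.mul_apply]
    simp only [du_apply]
    have h1 := congrArg f (LinearMap.congr_fun (h.R1 k l i j) v)
    rw [LinearMap.add_apply, LinearMap.add_apply, map_add, map_add, app', app',
      Module.End.mul_apply, Module.End.mul_apply] at h1
    by_cases hij : i = j
    · by_cases hkl : k = l
      · by_cases hil : i = l
        · have e1 : j = i := hij.symm
          have e2 : l = i := hil.symm
          have e3 : k = i := by rw [hkl, ← hil]
          subst e1 e2 e3
          simp only [if_true] at h1 ⊢
          linear_combination h1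
        · have hkj : k ≠ j := fun h => hil (by rw [hij, ← h, hkl])
          simp only [if_pos hij, if_pos hkl, if_neg hil, if_neg hkj] at h1 ⊢
          linear_combination h1
      · by_cases hil : i = l
        · by_cases hkj : k = j
          · exact absurd (by rw [hkj, ← hij, hil]) hkl
          · simp only [if_pos hij, if_neg hkl, if_pos hil, if_neg hkj] at h1 ⊢
            linear_combination h1
        · by_cases hkj : k = j
          · simp only [if_pos hij, if_neg hkl, if_neg hil, if_pos hkj] at h1 ⊢
            linear_combination h1
          · simp only [if_pos hij, if_neg hkl, if_neg hil, if_neg hkj] at h1 ⊢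
            linear_combination h1
    · by_cases hkl : k = l
      · by_cases hil : i = l
        · by_cases hkj : k = j
          · exact absurd (by rw [hil, ← hkl, hkj]) hij
          · simp only [if_neg hij, if_pos hkl, if_pos hil, if_neg hkj] at h1 ⊢
            linear_combination h1
        · by_cases hkj : k = j
          · simp only [if_neg hij, if_pos hkl, if_neg hil, if_pos hkj] at h1 ⊢
            linear_combination h1
          · simp only [if_neg hij, if_pos hkl, if_neg hil, if_neg hkj] at h1 ⊢
            linear_combination h1
      · by_cases hil : i = l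
        · by_cases hkj : k = j
          · simp only [if_neg hij, if_neg hkl, if_pos hil, if_pos hkj] at h1 ⊢
            linear_combination h1
          · simp only [if_neg hij, if_neg hkl, if_pos hil, if_neg hkj] at h1 ⊢
            linear_combination h1
        · by_cases hkj : k = j
          · simp only [if_neg hij, if_neg hkl, if_neg hil, if_pos hkj] at h1 ⊢
            linear_combination h1
          · simp only [if_neg hij, if_neg hkl, if_neg hil, if_neg hkj] at h1 ⊢
            linear_combination h1
  · intro i j k l
    ext f v
    rw [LinearMap.add_apply, LinearMap.add_apply, LinearMap.add_apply, LinearMap.add_apply, app, app,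
      Module.End.mul_apply, Module.End.mul_apply]
    simp only [du_apply]
    have h1 := congrArg f (LinearMap.congr_fun (h.R2 k l i j) v)
    rw [LinearMap.add_apply, LinearMap.add_apply, map_add, map_add, app', app',
      Module.End.mul_apply, Module.End.mul_apply] at h1
    by_cases hij : i = j
    · by_cases hkl : k = l
      · by_cases hil : i = l
        · have e1 : j = i := hij.symm
          have e2 : l = i := hil.symm
          have e3 : k = i := by rw [hkl, ← hil]
          subst e1 e2 e3
          simp only [if_true] at h1 ⊢
          linear_combination h1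
        · have hkj : k ≠ j := fun h => hil (by rw [hij, ← h, hkl])
          simp only [if_pos hij, if_pos hkl, if_neg hil, if_neg hkj] at h1 ⊢
          linear_combination h1
      · by_cases hil : i = l
        · by_cases hkj : k = j
          · exact absurd (by rw [hkj, ← hij, hil]) hkl
          · simp only [if_pos hij, if_neg hkl, if_pos hil, if_neg hkj] at h1 ⊢
            linear_combination h1
        · by_cases hkj : k = j
          · simp only [if_pos hij, if_neg hkl, if_neg hil, if_pos hkj] at h1 ⊢
            linear_combination h1
          · simp only [if_pos hij, if_neg hkl, if_neg hil, if_neg hkj] at h1 ⊢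
            linear_combination h1
    · by_cases hkl : k = l
      · by_cases hil : i = l
        · by_cases hkj : k = j
          · exact absurd (by rw [hil, ← hkl, hkj]) hij
          · simp only [if_neg hij, if_pos hkl, if_pos hil, if_neg hkj] at h1 ⊢
            linear_combination h1
        · by_cases hkj : k = j
          · simp only [if_neg hij, if_pos hkl, if_neg hil, if_pos hkj] at h1 ⊢
            linear_combination h1
          · simp only [if_neg hij, if_pos hkl, if_neg hil, if_neg hkj] at h1 ⊢
            linear_combination h1
      · by_cases hil : i = l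
        · by_cases hkj : k = j
          · simp only [if_neg hij, if_neg hkl, if_pos hil, if_pos hkj] at h1 ⊢
            linear_combination h1
          · simp only [if_neg hij, if_neg hkl, if_pos hil, if_neg hkj] at h1 ⊢
            linear_combination h1
        · by_cases hkj : k = j
          · simp only [if_neg hij, if_neg hkl, if_neg hil, if_pos hkj] at h1 ⊢
            linear_combination h1
          · simp only [if_neg hij, if_neg hkl, if_neg hil, if_neg hkj] at h1 ⊢
            linear_combination h1

/-- An invariant form in the middle. -/
theorem Ext.form {k : ℕ} {A : Fin (2 * k) → Fin (2 * k) → Module.End K V} (h : Ext A)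
    {π : Module.End K V} (hA1 : ∀ i j, A i j * π = A i j) (hA2 : ∀ i j, π * A i j = A i j)
    (hππ : π * π = π) (hW : Irr (unc A) (LinearMap.range π))
    (hc : ∀ u ∈ LinearMap.range π, ∑ i, A i i u = (k : K) • u) :
    ∃ b : V →ₗ[K] V →ₗ[K] K, (∃ u ∈ LinearMap.range π, ∃ v ∈ LinearMap.range π, b u v ≠ 0) ∧
      ∀ i j, ∀ u ∈ LinearMap.range π, ∀ v ∈ LinearMap.range π,
        b (A i j u) v + b u (A i j v) = if i = j then b u v else 0 := by
  classical
  obtain ⟨W, hWd⟩ : ∃ W, W = LinearMap.range π := ⟨_, rfl⟩
  rw [← hWd] at hW hc ⊢
  have hπW : ∀ u, π u ∈ W := by rw [hWd]; exact fun u => ⟨u, rfl⟩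
  have hπ1 : ∀ u ∈ W, π u = u := by
    rw [hWd]
    rintro _ ⟨v, rfl⟩
    exact LinearMap.congr_fun hππ v
  have hAπ : ∀ i j u, A i j (π u) = A i j u := fun i j u => LinearMap.congr_fun (hA1 i j) u
  let W' : Submodule K (Module.Dual K V) :=
    { carrier := {f | ∀ v, f (π v) = f v}
      zero_mem' := fun v => rfl
      add_mem' := by
        intro a b ha hb v
        rw [LinearMap.add_apply, LinearMap.add_apply, ha, hb]
      smul_mem' := by
        intro r a ha v
        rw [LinearMap.smul_apply, LinearMap.smul_apply, ha] }
  have memW' : ∀ f : Module.Dual K V, f ∈ W' ↔ ∀ v, f (π v) = f v := fun f => Iff.rfl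
  have hstW' : ∀ i j, ∀ f ∈ W', OU.du A i j f ∈ W' := by
    intro i j f hf
    rw [memW'] at hf ⊢
    intro v
    rw [du_apply, du_apply, hf, hAπ]
  have hIrr' : Irr (unc (OU.du A)) W' := by
    refine ⟨?_, ?_, ?_⟩
    · intro hb
      obtain ⟨w, hw, hw0⟩ := Submodule.exists_mem_ne_zero_of_ne_bot hW.ne
      apply hw0
      rw [← Module.forall_dual_apply_eq_zero_iff K]
      intro f
      have h1 : f ∘ₗ π ∈ W' := by
        rw [memW']
        intro v
        show f (π (π v)) = f (π v)
        have : π (π v) = π v := LinearMap.congr_fun hππ v
        rw [this]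
      rw [hb, Submodule.mem_bot] at h1
      have h2 := LinearMap.congr_fun h1 w
      have h3 : (f ∘ₗ π) w = f w := by
        show f (π w) = f w
        rw [hπ1 w hw]
      rw [← h3, h2, LinearMap.zero_apply]
    · rintro ⟨i, j⟩ f hf
      exact hstW' i j f hf
    · intro N hN hst
      let P : Submodule K V := W ⊓ N.dualCoannihilator
      have memP : ∀ u, u ∈ P ↔ u ∈ W ∧ ∀ f ∈ N, f u = 0 := by
        intro u
        rw [Submodule.mem_inf, Submodule.mem_dualCoannihilator]
      have hP : P = ⊥ ∨ P = W := by
        refine hW.irr P inf_le_left ?_
        rintro ⟨i, j⟩ u hu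
        rw [memP] at hu ⊢
        refine ⟨hW.st (i, j) u hu.1, ?_⟩
        intro f hf
        have h1 := hu.2 _ (hst (i, j) f hf)
        have h2 : unc (OU.du A) (i, j) f u = (if i = j then f u else 0) - f (A i j u) :=
          du_apply A i j f u
        rw [h2, hu.2 f hf, ite_self, zero_sub, neg_eq_zero] at h1
        exact h1
      rcases hP with hP | hP
      · right
        apply le_antisymm hN
        have hker : N.dualCoannihilator ≤ LinearMap.ker π := by
          intro u hu
          rw [Submodule.mem_dualCoannihilator] at hu
          have h1 : π u ∈ P := by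
            rw [memP]
            refine ⟨hπW u, ?_⟩
            intro f hf
            rw [(memW' f).mp (hN hf) u]
            exact hu f hf
          rw [hP, Submodule.mem_bot] at h1
          exact h1
        have h2 : (LinearMap.ker π).dualAnnihilator ≤ N := by
          have h3 := Submodule.dualAnnihilator_anti hker
          rwa [Subspace.dualCoannihilator_dualAnnihilator_eq] at h3
        intro f hf
        apply h2
        rw [Submodule.mem_dualAnnihilator]
        intro u hu
        rw [LinearMap.mem_ker] at hu
        rw [← (memW' f).mp hf u, hu, map_zero]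
      · left
        rw [eq_bot_iff]
        intro f hf
        rw [Submodule.mem_bot]
        ext v
        rw [LinearMap.zero_apply, ← (memW' f).mp (hN hf) v]
        have : π v ∈ P := by rw [hP]; exact hπW v
        exact ((memP _).mp this).2 f hf
  have hc' : ∀ f ∈ W', ∑ i, OU.du A i i f = (k : K) • f := by
    intro f hf
    ext v
    rw [LinearMap.sum_apply, LinearMap.smul_apply]
    have e : ∀ i, OU.du A i i f v = f v - f (A i i v) := by
      intro i
      rw [du_apply, if_pos rfl]
    rw [Finset.sum_congr rfl (fun i _ => e i), Finset.sum_sub_distrib, Finset.sum_const,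
      Finset.card_univ, Fintype.card_fin, ← Nat.cast_smul_eq_nsmul K, ← map_sum]
    have h1 : ∑ i, A i i v = (k : K) • π v := by
      rw [← hc (π v) (hπW v)]
      exact Finset.sum_congr rfl (fun i _ => (hAπ i i v).symm)
    rw [h1, map_smul, (memW' f).mp hf v, ← sub_smul]
    congr 1
    push_cast; ring
  obtain ⟨Γ, G1, G2, G3, G4, G5⟩ := Ext.uniq h (Ext.du h) hW hIrr' hc hc'
  -- projection onto W
  have hB : ∀ u ∈ W, ∃ f : Module.Dual K V, (u, f) ∈ Γ := by
    let B : Submodule K V := Γ.map (LinearMap.fst K V (Module.Dual K V))
    have hBB : B = ⊥ ∨ B = W := by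
      refine hW.irr B ?_ ?_
      · rintro _ ⟨z, hz, rfl⟩
        exact (G1 z hz).1
      · rintro ⟨i, j⟩ _ ⟨z, hz, rfl⟩
        exact ⟨_, G2 i j z hz, rfl⟩
    rcases hBB with hB | hB
    · exfalso
      obtain ⟨z, hz, hz0⟩ := Submodule.exists_mem_ne_zero_of_ne_bot G3
      apply hz0
      refine G4 z hz ?_
      have : z.1 ∈ B := ⟨z, hz, rfl⟩
      rw [hB, Submodule.mem_bot] at this
      exact this
    · intro u hu
      rw [← hB] at hu
      obtain ⟨⟨u', f⟩, hz, rfl⟩ := hu
      exact ⟨f, hz⟩
  choose Φ hΦ using fun u : V => hB (π u) (hπW u)
  have huniq : ∀ u f, (π u, f) ∈ Γ → f = Φ u := by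
    intro u f hf
    have h1 := Γ.sub_mem hf (hΦ u)
    have e : (π u, f) - (π u, Φ u) = ((0 : V), f - Φ u) := Prod.ext (sub_self _) rfl
    rw [e] at h1
    exact sub_eq_zero.mp (congrArg Prod.snd (G4 _ h1 rfl))
  let Ψ : V →ₗ[K] Module.Dual K V :=
    { toFun := Φ
      map_add' := by
        intro a c
        have h1 := Γ.add_mem (hΦ a) (hΦ c)
        rw [Prod.mk_add_mk, ← map_add] at h1
        exact (huniq _ _ h1).symm
      map_smul' := by
        intro r a
        have h1 := Γ.smul_mem r (hΦ a)
        rw [Prod.smul_mk, ← map_smul] at h1
        exact (huniq _ _ h1).symm }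
  refine ⟨LinearMap.flip Ψ, ?_, ?_⟩
  · obtain ⟨w, hw, hw0⟩ := Submodule.exists_mem_ne_zero_of_ne_bot hW.ne
    have h1 : Φ w ≠ 0 := by
      intro h0
      have h2 := hΦ w
      rw [h0, hπ1 w hw] at h2
      exact hw0 (congrArg Prod.fst (G5 _ h2 rfl))
    obtain ⟨v, hv⟩ : ∃ v, Φ w v ≠ 0 := by
      by_contra hne
      push Not at hne
      exact h1 (LinearMap.ext hne)
    refine ⟨π v, hπW v, w, hw, ?_⟩
    show Φ w (π v) ≠ 0
    rw [(memW' _).mp (G1 _ (hΦ w)).2 v]
    exact hv
  · intro i j u _ v hv
    show Φ v (A i j u) + Φ (A i j v) u = if i = j then Φ v u else 0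
    have h1 := G2 i j _ (hΦ v)
    have e : (A i j (π v, Φ v).1, OU.du A i j (π v, Φ v).2) = (π (A i j v), OU.du A i j (Φ v)) := by
      refine Prod.ext ?_ rfl
      show A i j (π v) = π (A i j v)
      have : π (A i j v) = A i j v := LinearMap.congr_fun (hA2 i j) v
      rw [hAπ, this]
    rw [e] at h1
    rw [← huniq _ _ h1, du_apply]
    ring

end Pool.Agent.OU
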