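import Pool.Agent.Lib_helper24.K0.S2
import Pool.Agent.Lib_helper24.K0.S5
import Pool.Agent.Lib_helper24.K0.S8
import Pool.Agent.Lib_helper9.U4.SD3

/-! The case of trace zero: full or self-dual, with the exact list of exceptions. -/

set_option linter.unusedSectionVars false
set_option linter.unusedSimpArgs false

namespace Pool.Agent.OU

open Module Pool.Agent.OT Pool.Agent.U4

variable {K : Type*} [Field K] [CharZero K] [IsAlgClosed K]
variable {V : Type*} [AddCommGroup V] [Module K V] [FiniteDimensional K V]
variable {L : Submodule K (Module.End K V)}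
variable {s E F p q E' F' p' q' x₀ x : Module.End K V} {κ : K}

/-- A nonzero invariant form gives an isomorphism to the dual. -/
theorem SimU.equivDual (S : SimU L) (h : SelfDual L) :
    ∃ f : V ≃ₗ[K] Module.Dual K V, ∀ x ∈ L, ∀ v, f (x v) = ctr x (f v) := by
  obtain ⟨β, hβ0, hβ⟩ := h
  have hker : LinearMap.ker β = ⊥ := by
    rcases S.irr (LinearMap.ker β) (by
      intro x hx v hv
      rw [LinearMap.mem_ker] at hv ⊢
      ext w
      rw [hβ x hx, hv, LinearMap.zero_apply, neg_zero, LinearMap.zero_apply]) with h | h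
    · exact h
    · exfalso
      apply hβ0
      rwa [LinearMap.ker_eq_top] at h
  have hinj : Function.Injective β := LinearMap.ker_eq_bot.mp hker
  have hsurj : Function.Surjective β :=
    (LinearMap.injective_iff_surjective_of_finrank_eq_finrank
      (Subspace.dual_finrank_eq (K := K) (V := V)).symm).mp hinj
  refine ⟨LinearEquiv.ofBijective β ⟨hinj, hsurj⟩, ?_⟩
  intro x hx v
  ext w
  rw [ctr_apply]
  exact hβ x hx v w

/-- The exceptional pairs: dimension n and rank r. -/
def ExcT (n r : ℕ) : Prop :=
  ∃ t, 2 ≤ t ∧ Even t ∧ n = 2 ^ (t + 2) ∧ (r = 2 ^ t ∨ r = 2 ^ (t + 1))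

/-- Trace zero: L is sl(V) or self-dual. -/
theorem fullOrDual (S : SimU L) (hI : Inv L s 0) (hsc : ∀ c : K, s ≠ c • 1) (hx : x ∈ L)
    (hx0 : x ≠ 0)
    (h : (∃ c : K, 4 * rk (x + c • (1 : Module.End K V)) < finrank K V) ∨
      (x * x = 0 ∧ ¬ ExcT (finrank K V) (rk x))) :
    (∀ x : Module.End K V, LinearMap.trace K V x = 0 → x ∈ L) ∨
      ∃ f : V ≃ₗ[K] Module.Dual K V, ∀ x ∈ L, ∀ v, f (x v) = ctr x (f v) := by
  -- the main step
  have main : ∀ c : K, (4 * rk (x + c • (1 : Module.End K V)) < finrank K V ∨
      (x * x = 0 ∧ ¬ ExcT (finrank K V) (rk x))) →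
      (∀ x : Module.End K V, LinearMap.trace K V x = 0 → x ∈ L) ∨
      ∃ f : V ≃ₗ[K] Module.Dual K V, ∀ x ∈ L, ∀ v, f (x v) = ctr x (f v) := by
    intro c hc
    obtain ⟨t, κ', hI', ht, e, he, he0, her⟩ := S.exJc hI hsc hx hx0 c
    have hκ : κ' = 0 := by
      rcases ht with ⟨-, h⟩ | ⟨-, h⟩
      · exact h
      · rw [h, neg_zero]
    subst hκ
    have htc : ∀ c : K, t ≠ c • 1 := by
      intro c h
      rcases ht with ⟨rfl, -⟩ | ⟨rfl, -⟩
      · exact hsc c h
      · refine hsc (-c) ?_
        rw [neg_smul, ← h, neg_neg]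
    obtain ⟨E, F, p, q, D, E0, hEe, hAB⟩ := S.cases hI' he he0
    rcases hAB with hA | ⟨E', F', p', q', x₀, C⟩
    · right
      exact S.equivDual hA.selfDual
    · rcases C.le4.lt_or_eq with h4 | h4
      · exact k0_cfg C h4
      · obtain ⟨k, hk, hsd⟩ := C.spin' h4
        rcases hsd with hsd | hev
        · right
          exact S.equivDual hsd
        · by_cases h1 : rk E = 1
          · exact k0_one S D.toTri h1
          · exfalso
            rcases hc with hc | ⟨hxx, hne⟩
            · omega
            · have hk0 : k ≠ 0 := by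
                rintro rfl
                exact h1 (by rw [hk, pow_zero])
              have hk2 : 2 ≤ k := by
                obtain ⟨m, hm⟩ := hev
                omega
              apply hne
              refine ⟨k, hk2, hev, ?_, ?_⟩
              · rw [← h4, hk, pow_add]; ring
              · have h2 := two_rk_le hxx
                have e1 : 2 ^ (k + 1) = 2 * 2 ^ k := by rw [pow_succ]; ring
                rcases S.rkU hI' htc (D.toTri.extr S.good E0) hx hxx hx0 with h | h
                · left; rw [h, hk]
                · right; omega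
  rcases h with ⟨c, hc⟩ | h
  · exact main c (Or.inl hc)
  · exact main 0 (Or.inr h)

end Pool.Agent.OU
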